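import Mathlib

/-!
# The residue theorem for rings with one place at infinity

`R` is a set of formal Laurent series, closed under sums, products and scalars, which contains no
nonzero series of positive order, and such that all large pole orders occur. Then
`Res (f dg) = 0` for all `f, g ∈ R`.
-/

set_option autoImplicit false

namespace Pool.Agent.H90.Ram

open HahnSeries Finset

/-- Formal Laurent series over `ℂ`. -/
abbrev LS : Type := LaurentSeries ℂ

/-- The Euler derivation `x d/dx`. -/
noncomputable def theta (f : LS) : LS where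
  coeff n := (n : ℂ) * f.coeff n
  isPWO_support' := f.isPWO_support.mono (by
    intro n hn
    simp only [Function.mem_support, ne_eq] at hn
    simp only [mem_support, ne_eq]
    intro h
    exact hn (by rw [h, mul_zero]))

@[simp] theorem theta_coeff (f : LS) (n : ℤ) : (theta f).coeff n = (n : ℂ) * f.coeff n := rfl

theorem coeff_mul_Icc (f g : LS) (a b n : ℤ) (hf : ∀ i < a, f.coeff i = 0)
    (hg : ∀ i < b, g.coeff i = 0) :
    (f * g).coeff n = ∑ i ∈ Finset.Icc a (n - b), f.coeff i * g.coeff (n - i) := by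
  rw [HahnSeries.coeff_mul]
  refine Finset.sum_of_injOn (fun ij => ij.1) ?_ ?_ ?_ ?_
  · rintro ⟨i, j⟩ h1 ⟨i', j'⟩ h2 h
    simp only [Finset.mem_coe, Finset.mem_antidiagonal] at h1 h2
    simp only at h
    ext
    · exact h
    · simp only
      omega
  · rintro ⟨i, j⟩ h1
    simp only [Finset.mem_coe, Finset.mem_antidiagonal, mem_support, ne_eq] at h1
    simp only [Finset.coe_Icc, Set.mem_Icc]
    obtain ⟨h1, h2, h3⟩ := h1
    constructor
    · by_contra hlt
      exact h1 (hf i (by omega))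
    · by_contra hlt
      exact h2 (hg j (by omega))
  · intro i hi hni
    by_contra hne
    apply hni
    refine ⟨(i, n - i), ?_, rfl⟩
    simp only [Finset.mem_coe, Finset.mem_antidiagonal, mem_support, ne_eq]
    refine ⟨fun h => hne (by rw [h, zero_mul]), fun h => hne (by rw [h, mul_zero]), by ring⟩
  · rintro ⟨i, j⟩ h1
    simp only [Finset.mem_antidiagonal] at h1
    obtain ⟨-, -, h3⟩ := h1
    simp only
    rw [show n - i = j by omega]

theorem exists_bound (f : LS) : ∃ a : ℕ, ∀ i : ℤ, i < -(a : ℤ) → f.coeff i = 0 := by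
  by_cases hf : f = 0
  · exact ⟨0, fun i _ => by rw [hf]; rfl⟩
  · refine ⟨(-f.order).toNat, fun i hi => coeff_eq_zero_of_lt_order ?_⟩
    have := Int.self_le_toNat (-f.order)
    omega

theorem theta_mul (f g : LS) : theta (f * g) = theta f * g + f * theta g := by
  obtain ⟨a, ha⟩ := exists_bound f
  obtain ⟨b, hb⟩ := exists_bound g
  ext n
  rw [theta_coeff, coeff_add, coeff_mul_Icc f g _ _ n ha hb,
    coeff_mul_Icc (theta f) g _ _ n (fun i hi => by rw [theta_coeff, ha i hi, mul_zero]) hb,
    coeff_mul_Icc f (theta g) _ _ n ha (fun i hi => by rw [theta_coeff, hb i hi, mul_zero]),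
    ← Finset.sum_add_distrib, Finset.mul_sum]
  refine Finset.sum_congr rfl fun i _ => ?_
  rw [theta_coeff, theta_coeff]
  push_cast
  ring

theorem theta_add (f g : LS) : theta (f + g) = theta f + theta g := by
  ext n
  simp [mul_add]

theorem theta_sub (f g : LS) : theta (f - g) = theta f - theta g := by
  ext n
  simp [mul_sub]

theorem theta_C (c : ℂ) : theta (C c) = 0 := by
  ext n
  rw [theta_coeff, C_apply, coeff_zero]
  by_cases hn : n = 0
  · rw [hn]; simp
  · rw [coeff_single_of_ne hn, mul_zero]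

theorem theta_C_mul (c : ℂ) (f : LS) : theta (C c * f) = C c * theta f := by
  rw [theta_mul, theta_C, zero_mul, zero_add]

theorem coeff_C_mul (c : ℂ) (f : LS) (n : ℤ) : (C c * f).coeff n = c * f.coeff n := by
  rw [C_mul_eq_smul, HahnSeries.coeff_smul, smul_eq_mul]

/-- `R` is closed under the operations of a `ℂ`-algebra. -/
structure IsAlg (R : Set LS) : Prop where
  C_mem : ∀ c : ℂ, C c ∈ R
  add_mem : ∀ f g : LS, f ∈ R → g ∈ R → f + g ∈ R
  mul_mem : ∀ f g : LS, f ∈ R → g ∈ R → f * g ∈ R

/-- The pole orders of the elements of `R`. -/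
def degSet (R : Set LS) : Set ℕ :=
  {j : ℕ | ∃ r ∈ R, r.coeff (-(j : ℤ)) ≠ 0 ∧ ∀ i : ℤ, i < -(j : ℤ) → r.coeff i = 0}

theorem IsAlg.zero_mem {R : Set LS} (hR : IsAlg R) : (0 : LS) ∈ R := by
  have := hR.C_mem 0
  rwa [map_zero] at this

theorem IsAlg.smul_mem {R : Set LS} (hR : IsAlg R) (c : ℂ) (f : LS) (hf : f ∈ R) :
    C c * f ∈ R := hR.mul_mem _ _ (hR.C_mem c) hf

theorem IsAlg.neg_mem {R : Set LS} (hR : IsAlg R) (f : LS) (hf : f ∈ R) : -f ∈ R := by
  have := hR.smul_mem (-1) f hf
  rwa [map_neg, map_one, neg_one_mul] at this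

theorem IsAlg.sub_mem {R : Set LS} (hR : IsAlg R) (f g : LS) (hf : f ∈ R) (hg : g ∈ R) :
    f - g ∈ R := by
  rw [sub_eq_add_neg]
  exact hR.add_mem _ _ hf (hR.neg_mem g hg)

theorem IsAlg.sum_mem {R : Set LS} (hR : IsAlg R) (s : Finset ℕ) (F : ℕ → LS)
    (h : ∀ i ∈ s, F i ∈ R) : ∑ i ∈ s, F i ∈ R := by
  induction s using Finset.induction_on with
  | empty => simpa using hR.zero_mem
  | insert a s ha ih =>
    rw [Finset.sum_insert ha]
    exact hR.add_mem _ _ (h a (Finset.mem_insert_self a s))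
      (ih fun i hi => h i (Finset.mem_insert_of_mem hi))

/-- An element of `R` all of whose coefficients at the pole orders of `R` vanish is zero. -/
theorem eq_zero_of_free {R : Set LS}
    (h1 : ∀ r ∈ R, (∀ i : ℤ, i ≤ 0 → r.coeff i = 0) → r = 0) (r : LS) (hr : r ∈ R)
    (hf : ∀ j ∈ degSet R, r.coeff (-(j : ℤ)) = 0) : r = 0 := by
  by_contra hne
  have ho : r.order ≤ 0 := by
    by_contra hpos
    exact hne (h1 r hr fun i hi => coeff_eq_zero_of_lt_order (by omega))
  have hj : ((-r.order).toNat : ℤ) = -r.order := Int.toNat_of_nonneg (by omega)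
  have hc : r.coeff r.order ≠ 0 := fun h => hne (coeff_order_eq_zero.1 h)
  have hmem : (-r.order).toNat ∈ degSet R := by
    refine ⟨r, hr, ?_, fun i hi => coeff_eq_zero_of_lt_order ?_⟩
    · rw [hj, neg_neg]; exact hc
    · rw [hj, neg_neg] at hi; exact hi
  have := hf _ hmem
  rw [hj, neg_neg] at this
  exact hc this

theorem coeff_sum (s : Finset ℕ) (F : ℕ → LS) (n : ℤ) :
    (∑ i ∈ s, F i).coeff n = ∑ i ∈ s, (F i).coeff n := by
  induction s using Finset.induction_on with
  | empty => simp
  | insert a s ha ih => rw [Finset.sum_insert ha, Finset.sum_insert ha, coeff_add, ih]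

/-- The defining properties of the reduced basis element of pole order `j`. -/
structure IsRho (R : Set LS) (j : ℕ) (p : LS) : Prop where
  mem : p ∈ R
  one : j ∈ degSet R → p.coeff (-(j : ℤ)) = 1
  zero : j ∉ degSet R → p = 0
  low : ∀ i : ℤ, i < -(j : ℤ) → p.coeff i = 0
  free : ∀ l ∈ degSet R, l ≠ j → p.coeff (-(l : ℤ)) = 0

theorem exists_rho {R : Set LS} (hR : IsAlg R) (j : ℕ) : ∃ p : LS, IsRho R j p := by
  induction j using Nat.strong_induction_on with
  | _ j ih =>
    by_cases hj : j ∈ degSet R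
    · have ih' : ∀ l : ℕ, ∃ p : LS, l < j → IsRho R l p := by
        intro l
        by_cases hl : l < j
        · obtain ⟨p, hp⟩ := ih l hl
          exact ⟨p, fun _ => hp⟩
        · exact ⟨0, fun h => absurd h hl⟩
      choose rho hrho using ih'
      obtain ⟨r, hr, hc, hlow⟩ := hj
      obtain ⟨r1, hr1m, hr1c, hr1l⟩ : ∃ r1 ∈ R, r1.coeff (-(j : ℤ)) = 1 ∧
          ∀ i : ℤ, i < -(j : ℤ) → r1.coeff i = 0 := by
        refine ⟨C (r.coeff (-(j : ℤ)))⁻¹ * r, hR.smul_mem _ _ hr, ?_, fun i hi => ?_⟩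
        · rw [coeff_C_mul, inv_mul_cancel₀ hc]
        · rw [coeff_C_mul, hlow i hi, mul_zero]
      refine ⟨r1 - ∑ l ∈ range j, C (r1.coeff (-(l : ℤ))) * rho l, ?_, ?_, ?_, ?_, ?_⟩
      · exact hR.sub_mem _ _ hr1m (hR.sum_mem _ _ fun l hl =>
          hR.smul_mem _ _ (hrho l (Finset.mem_range.1 hl)).mem)
      · intro _
        rw [coeff_sub, coeff_sum, hr1c, Finset.sum_eq_zero, sub_zero]
        intro l hl
        rw [Finset.mem_range] at hl
        rw [coeff_C_mul, (hrho l hl).low _ (by omega), mul_zero]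
      · intro h
        exact absurd ⟨r, hr, hc, hlow⟩ h
      · intro i hi
        rw [coeff_sub, coeff_sum, hr1l i hi, Finset.sum_eq_zero, sub_zero]
        intro l hl
        rw [Finset.mem_range] at hl
        rw [coeff_C_mul, (hrho l hl).low _ (by omega), mul_zero]
      · intro l hl hlj
        rw [coeff_sub, coeff_sum]
        rcases lt_or_gt_of_ne hlj with h | h
        · rw [Finset.sum_eq_single l]
          · rw [coeff_C_mul, (hrho l h).one hl, mul_one, sub_self]
          · intro k hk hkl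
            rw [Finset.mem_range] at hk
            rw [coeff_C_mul, (hrho k hk).free l hl (Ne.symm hkl), mul_zero]
          · intro hn
            exact absurd (Finset.mem_range.2 h) hn
        · rw [hr1l _ (by omega), Finset.sum_eq_zero, sub_zero]
          intro k hk
          rw [Finset.mem_range] at hk
          rw [coeff_C_mul, (hrho k hk).low _ (by omega), mul_zero]
    · exact ⟨0, hR.zero_mem, fun h => absurd h hj, fun _ => rfl, fun _ _ => rfl,
        fun _ _ _ => rfl⟩

theorem expand {R : Set LS} (hR : IsAlg R)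
    (h1 : ∀ r ∈ R, (∀ i : ℤ, i ≤ 0 → r.coeff i = 0) → r = 0) {rho : ℕ → LS}
    (hrho : ∀ j, IsRho R j (rho j)) (h : LS) (hh : h ∈ R) (M : ℕ)
    (hM : ∀ i : ℤ, i ≤ -(M : ℤ) → h.coeff i = 0) :
    h = ∑ l ∈ range M, C (h.coeff (-(l : ℤ))) * rho l := by
  rw [← sub_eq_zero]
  refine eq_zero_of_free h1 _ (hR.sub_mem _ _ hh (hR.sum_mem _ _ fun l _ =>
    hR.smul_mem _ _ (hrho l).mem)) ?_
  intro j hj
  rw [coeff_sub, coeff_sum]
  by_cases hjM : j < M
  · rw [Finset.sum_eq_single j]
    · rw [coeff_C_mul, (hrho j).one hj, mul_one, sub_self]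
    · intro k _ hkj
      rw [coeff_C_mul, (hrho k).free j hj (Ne.symm hkj), mul_zero]
    · intro hn
      exact absurd (Finset.mem_range.2 hjM) hn
  · rw [hM _ (by omega), Finset.sum_eq_zero, sub_zero]
    intro k hk
    rw [Finset.mem_range] at hk
    rw [coeff_C_mul, (hrho k).free j hj (by omega), mul_zero]

end Pool.Agent.H90.Ram
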