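import Mathlib
import Pool.Agent.H90.Ram.Res

/-!
# The residue theorem for rings with one place at infinity: the proof
-/

set_option autoImplicit false

namespace Pool.Agent.H90.Ram

open HahnSeries Finset

theorem sum_tri (D : ℕ) (psi : ℕ → ℂ) (h : ∀ i, D ≤ i → psi i = 0) :
    ∑ p ∈ range D, ∑ r ∈ range D, psi (p + r) = ∑ i ∈ range D, ((i : ℂ) + 1) * psi i := by
  have h1 : ∀ p ∈ range D, ∑ r ∈ range D, psi (p + r) =
      ∑ i ∈ range D, if p ≤ i then psi i else 0 := by
    intro p hp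
    rw [Finset.mem_range] at hp
    have e1 : ∑ r ∈ range D, psi (p + r) = ∑ i ∈ Finset.Ico p (p + D), psi i := by
      rw [Finset.sum_Ico_eq_sum_range]
      simp
    rw [e1, ← Finset.sum_filter]
    symm
    refine Finset.sum_subset ?_ ?_
    · intro i hi
      rw [Finset.mem_filter, Finset.mem_range] at hi
      rw [Finset.mem_Ico]
      omega
    · intro i hi hni
      rw [Finset.mem_Ico] at hi
      rw [Finset.mem_filter, Finset.mem_range] at hni
      exact h i (by omega)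
  rw [Finset.sum_congr rfl h1, Finset.sum_comm]
  refine Finset.sum_congr rfl fun i hi => ?_
  rw [Finset.mem_range] at hi
  rw [← Finset.sum_filter, Finset.sum_const, nsmul_eq_mul]
  congr 1
  have : (Finset.filter (fun p => p ≤ i) (range D)) = range (i + 1) := by
    ext p
    rw [Finset.mem_filter, Finset.mem_range, Finset.mem_range]
    omega
  rw [this, Finset.card_range]
  push_cast
  ring

theorem sum_Icc_sym (D : ℕ) (chi : ℤ → ℂ) :
    ∑ i ∈ Finset.Icc (-(D : ℤ)) (D : ℤ), chi i =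
      chi 0 + ∑ i ∈ range D, (chi ((i : ℤ) + 1) + chi (-((i : ℤ) + 1))) := by
  induction D with
  | zero => simp
  | succ D ih =>
    have e : Finset.Icc (-((D + 1 : ℕ) : ℤ)) ((D + 1 : ℕ) : ℤ) =
        insert (-((D : ℤ) + 1)) (insert ((D : ℤ) + 1) (Finset.Icc (-(D : ℤ)) (D : ℤ))) := by
      ext x
      simp only [Finset.mem_insert, Finset.mem_Icc]
      push_cast
      omega
    rw [e, Finset.sum_insert, Finset.sum_insert, ih, Finset.sum_range_succ]
    · ring
    · simp only [Finset.mem_Icc]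
      omega
    · simp only [Finset.mem_insert, Finset.mem_Icc]
      omega

theorem mul_low (f r : LS) (D m : ℕ) (hf : ∀ i : ℤ, i < -(D : ℤ) → f.coeff i = 0)
    (hr : ∀ i : ℤ, i < -(m : ℤ) → r.coeff i = 0) (x : ℤ) (hx : x < -(m : ℤ) - D) :
    (f * r).coeff x = 0 := by
  rw [coeff_mul_Icc f r _ _ x hf hr, Finset.Icc_eq_empty (by omega), Finset.sum_empty]

theorem entry {R : Set LS} {rho : ℕ → LS} (hrho : ∀ j, IsRho R j (rho j)) (N0 : ℕ)
    (hN0 : ∀ j, N0 ≤ j → j ∈ degSet R) (f : LS) (D : ℕ)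
    (hf : ∀ i : ℤ, i < -(D : ℤ) → f.coeff i = 0) (k m : ℕ) (hk : N0 ≤ k) (hm : N0 + D ≤ m) :
    (f * rho k).coeff (-(m : ℤ)) = f.coeff ((k : ℤ) - m) := by
  have hval : ∀ x : ℤ, x ≤ -(N0 : ℤ) → (rho k).coeff x = if x = -(k : ℤ) then 1 else 0 := by
    intro x hx
    have hx' : ((-x).toNat : ℤ) = -x := Int.toNat_of_nonneg (by omega)
    split_ifs with h
    · rw [h]; exact (hrho k).one (hN0 k hk)
    · have := (hrho k).free (-x).toNat (hN0 _ (by omega)) (by omega)
      rwa [hx', neg_neg] at this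
  rw [coeff_mul_Icc f (rho k) _ _ _ hf (hrho k).low]
  have e : ∀ i ∈ Finset.Icc (-(D : ℤ)) (-(m : ℤ) - -(k : ℤ)),
      f.coeff i * (rho k).coeff (-(m : ℤ) - i) =
        if i = (k : ℤ) - m then f.coeff i else 0 := by
    intro i hi
    rw [Finset.mem_Icc] at hi
    rw [hval _ (by omega)]
    by_cases h : i = (k : ℤ) - m
    · rw [if_pos h, if_pos (by omega), mul_one]
    · rw [if_neg h, if_neg (by omega), mul_zero]
  rw [Finset.sum_congr rfl e, Finset.sum_ite_eq']
  split_ifs with h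
  · rfl
  · rw [Finset.mem_Icc] at h
    exact (hf _ (by omega)).symm

theorem coeff_mul_expand {R : Set LS} (hR : IsAlg R)
    (h1 : ∀ r ∈ R, (∀ i : ℤ, i ≤ 0 → r.coeff i = 0) → r = 0) {rho : ℕ → LS}
    (hrho : ∀ j, IsRho R j (rho j)) (f g : LS) (hg : g ∈ R) (D : ℕ)
    (hgD : ∀ i : ℤ, i < -(D : ℤ) → g.coeff i = 0) (m M : ℕ) (hM : m + D < M) (x : ℤ) :
    (f * (g * rho m)).coeff x =
      ∑ k ∈ range M, (g * rho m).coeff (-(k : ℤ)) * (f * rho k).coeff x := by
  have e := expand hR h1 hrho (g * rho m) (hR.mul_mem _ _ hg (hrho m).mem) M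
    (fun i hi => mul_low g (rho m) D m hgD (hrho m).low i (by omega))
  conv_lhs => rw [e]
  rw [Finset.mul_sum, coeff_sum]
  refine Finset.sum_congr rfl fun k _ => ?_
  rw [mul_left_comm, coeff_C_mul]

/-- **The residue theorem for rings with one place at infinity.** -/
theorem residue {R : Set LS} (hR : IsAlg R)
    (h1 : ∀ r ∈ R, (∀ i : ℤ, i ≤ 0 → r.coeff i = 0) → r = 0) (N0 : ℕ)
    (hN0 : ∀ j, N0 ≤ j → j ∈ degSet R) (f g : LS) (hf : f ∈ R) (hg : g ∈ R) :
    (f * theta g).coeff 0 = 0 := by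
  choose rho hrho using fun j => exists_rho hR j
  obtain ⟨a, ha⟩ := exists_bound f
  obtain ⟨b, hb⟩ := exists_bound g
  obtain ⟨D, hDa, hDb⟩ : ∃ D : ℕ, a ≤ D ∧ b ≤ D := ⟨max a b, le_max_left _ _, le_max_right _ _⟩
  have hfD : ∀ i : ℤ, i < -(D : ℤ) → f.coeff i = 0 := fun i hi => ha i (by omega)
  have hgD : ∀ i : ℤ, i < -(D : ℤ) → g.coeff i = 0 := fun i hi => hb i (by omega)
  obtain ⟨N, hN⟩ : ∃ N : ℕ, N = N0 + 2 * D := ⟨_, rfl⟩
  set F : ℕ → ℕ → ℂ := fun l m => (f * rho m).coeff (-(l : ℤ)) with hF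
  set G : ℕ → ℕ → ℂ := fun l m => (g * rho m).coeff (-(l : ℤ)) with hG
  set phi : ℤ → ℂ := fun i => f.coeff i * g.coeff (-i) - g.coeff i * f.coeff (-i) with hphi
  have hphi0 : ∀ i : ℤ, (D : ℤ) < i → phi i = 0 := by
    intro i hi
    simp only [hphi]
    rw [hgD (-i) (by omega), hfD (-i) (by omega), mul_zero, mul_zero, sub_zero]
  have key1 : ∀ m ∈ range (N + 1), ∑ k ∈ range (N + 1 + D), (F m k * G k m - G m k * F k m) = 0 := by
    intro m hm
    rw [Finset.mem_range] at hm
    have e1 := coeff_mul_expand hR h1 hrho f g hg D hgD m (N + 1 + D) (by omega) (-(m : ℤ))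
    have e2 := coeff_mul_expand hR h1 hrho g f hf D hfD m (N + 1 + D) (by omega) (-(m : ℤ))
    rw [Finset.sum_sub_distrib, sub_eq_zero]
    have e3 : f * (g * rho m) = g * (f * rho m) := by ring
    rw [e3, e2] at e1
    calc ∑ k ∈ range (N + 1 + D), F m k * G k m
        = ∑ k ∈ range (N + 1 + D), (g * rho m).coeff (-(k : ℤ)) * (f * rho k).coeff (-(m : ℤ)) :=
          Finset.sum_congr rfl fun k _ => mul_comm _ _
      _ = ∑ k ∈ range (N + 1 + D), (f * rho m).coeff (-(k : ℤ)) * (g * rho k).coeff (-(m : ℤ)) :=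
          e1.symm
      _ = ∑ k ∈ range (N + 1 + D), G m k * F k m :=
          Finset.sum_congr rfl fun k _ => mul_comm _ _
  have key2 : ∑ m ∈ range (N + 1), ∑ r ∈ range D,
      (F m (N + 1 + r) * G (N + 1 + r) m - G m (N + 1 + r) * F (N + 1 + r) m) = 0 := by
    have e1 : ∑ m ∈ range (N + 1), (∑ k ∈ range (N + 1), (F m k * G k m - G m k * F k m) +
        ∑ r ∈ range D,
          (F m (N + 1 + r) * G (N + 1 + r) m - G m (N + 1 + r) * F (N + 1 + r) m)) = 0 := by
      refine Finset.sum_eq_zero fun m hm => ?_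
      rw [← key1 m hm]
      exact (Finset.sum_range_add (fun k => F m k * G k m - G m k * F k m) (N + 1) D).symm
    rw [Finset.sum_add_distrib] at e1
    have e2 : ∑ m ∈ range (N + 1), ∑ k ∈ range (N + 1), (F m k * G k m - G m k * F k m) = 0 := by
      simp only [Finset.sum_sub_distrib]
      rw [sub_eq_zero, Finset.sum_comm]
      refine Finset.sum_congr rfl fun m _ => Finset.sum_congr rfl fun k _ => mul_comm _ _
    rwa [e2, zero_add] at e1
  have key3 : ∀ m ∈ range (N + 1), ∀ r ∈ range D,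
      F m (N + 1 + r) * G (N + 1 + r) m - G m (N + 1 + r) * F (N + 1 + r) m =
        phi ((N : ℤ) - m + r + 1) := by
    intro m hm r hr
    rw [Finset.mem_range] at hm hr
    by_cases hm2 : N0 + D ≤ m
    · simp only [hF, hG, hphi]
      rw [entry hrho N0 hN0 f D hfD (N + 1 + r) m (by omega) hm2,
        entry hrho N0 hN0 g D hgD m (N + 1 + r) (by omega) (by omega),
        entry hrho N0 hN0 g D hgD (N + 1 + r) m (by omega) hm2,
        entry hrho N0 hN0 f D hfD m (N + 1 + r) (by omega) (by omega)]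
      have e1 : (((N + 1 + r : ℕ) : ℤ) - m) = (N : ℤ) - m + r + 1 := by push_cast; ring
      have e2 : ((m : ℤ) - ((N + 1 + r : ℕ) : ℤ)) = -((N : ℤ) - m + r + 1) := by push_cast; ring
      rw [e1, e2]
    · rw [hphi0 _ (by omega)]
      have e1 : G (N + 1 + r) m = 0 :=
        mul_low g (rho m) D m hgD (hrho m).low _ (by push_cast; omega)
      have e2 : F (N + 1 + r) m = 0 :=
        mul_low f (rho m) D m hfD (hrho m).low _ (by push_cast; omega)
      rw [e1, e2, mul_zero, mul_zero, sub_zero]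
  have key4 : ∑ p ∈ range (N + 1), ∑ r ∈ range D, phi ((p : ℤ) + r + 1) = 0 := by
    rw [← key2, ← Finset.sum_range_reflect]
    refine Finset.sum_congr rfl fun m hm => Finset.sum_congr rfl fun r hr => ?_
    rw [key3 m hm r hr]
    rw [Finset.mem_range] at hm
    congr 2
    have : ((N + 1 - 1 - m : ℕ) : ℤ) = (N : ℤ) - m := by omega
    rw [this]
  have key5 : ∑ p ∈ range D, ∑ r ∈ range D, phi ((p : ℤ) + r + 1) = 0 := by
    have e : N + 1 = D + (N0 + D + 1) := by omega
    rw [e, Finset.sum_range_add (fun p : ℕ => ∑ r ∈ range D, phi ((p : ℤ) + r + 1))] at key4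
    rw [← key4]
    symm
    rw [add_eq_left]
    refine Finset.sum_eq_zero fun p _ => Finset.sum_eq_zero fun r _ => hphi0 _ ?_
    push_cast
    omega
  have key6 : ∑ i ∈ range D, ((i : ℂ) + 1) * phi ((i : ℤ) + 1) = 0 := by
    rw [← key5]
    have := sum_tri D (fun i => phi ((i : ℤ) + 1)) (fun i hi => hphi0 _ (by omega))
    rw [← this]
    refine Finset.sum_congr rfl fun p _ => Finset.sum_congr rfl fun r _ => ?_
    push_cast
    rfl
  rw [coeff_mul_Icc f (theta g) (-(D : ℤ)) (-(D : ℤ)) 0 hfD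
    (fun i hi => by rw [theta_coeff, hgD i hi, mul_zero])]
  have e0 : (0 : ℤ) - -(D : ℤ) = D := by ring
  rw [e0, sum_Icc_sym]
  have e1 : f.coeff 0 * (theta g).coeff (0 - 0) = 0 := by
    rw [theta_coeff]; simp
  rw [e1, zero_add, ← neg_eq_zero, ← Finset.sum_neg_distrib, ← key6]
  refine Finset.sum_congr rfl fun i _ => ?_
  simp only [theta_coeff, hphi, zero_sub, neg_neg]
  push_cast
  ring

end Pool.Agent.H90.Ram
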