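import Mathlib
import Pool.Agent.H90.Ram.Residue

/-!
# Orders of Laurent series and the degree relations on Ramanujam's surface
-/

set_option autoImplicit false

namespace Pool.Agent.H90.Ram

open HahnSeries

/-- All coefficients of index `< n` vanish. -/
def Ge (f : LS) (n : ℤ) : Prop := ∀ i < n, f.coeff i = 0

theorem ge_order (f : LS) : Ge f f.order := fun _ hi => coeff_eq_zero_of_lt_order hi

theorem Ge.mono {f : LS} {m n : ℤ} (h : Ge f n) (hmn : m ≤ n) : Ge f m :=
  fun i hi => h i (lt_of_lt_of_le hi hmn)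

theorem Ge.le_order {f : LS} {n : ℤ} (h : Ge f n) (hf : f ≠ 0) : n ≤ f.order := by
  by_contra hlt
  exact hf (coeff_order_eq_zero.1 (h _ (by omega)))

theorem Ge.mul {f g : LS} {m n : ℤ} (hf : Ge f m) (hg : Ge g n) : Ge (f * g) (m + n) := by
  intro i hi
  rw [coeff_mul_Icc f g m n i hf hg, Finset.Icc_eq_empty (by omega), Finset.sum_empty]

theorem Ge.coeff_mul {f g : LS} {m n : ℤ} (hf : Ge f m) (hg : Ge g n) :
    (f * g).coeff (m + n) = f.coeff m * g.coeff n := by
  rw [coeff_mul_Icc f g m n (m + n) hf hg, show m + n - n = m by ring, Finset.Icc_self,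
    Finset.sum_singleton, show m + n - m = n by ring]

theorem Ge.add {f g : LS} {n : ℤ} (hf : Ge f n) (hg : Ge g n) : Ge (f + g) n := by
  intro i hi
  rw [coeff_add, hf i hi, hg i hi, add_zero]

theorem Ge.neg {f : LS} {n : ℤ} (hf : Ge f n) : Ge (-f) n := by
  intro i hi
  rw [coeff_neg, hf i hi, neg_zero]

theorem Ge.sub {f g : LS} {n : ℤ} (hf : Ge f n) (hg : Ge g n) : Ge (f - g) n := by
  intro i hi
  rw [coeff_sub, hf i hi, hg i hi, sub_zero]

theorem ge_zero (n : ℤ) : Ge 0 n := fun _ _ => rfl

theorem ge_C (c : ℂ) : Ge (C c) 0 := by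
  intro i hi
  rw [C_apply, coeff_single_of_ne (by omega)]

theorem ge_one : Ge 1 0 := by
  have := ge_C 1
  rwa [map_one] at this

theorem Ge.C_mul {f : LS} {n : ℤ} (c : ℂ) (hf : Ge f n) : Ge (C c * f) n := by
  intro i hi
  rw [coeff_C_mul, hf i hi, mul_zero]

theorem Ge.theta {f : LS} {n : ℤ} (hf : Ge f n) : Ge (theta f) n := by
  intro i hi
  rw [theta_coeff, hf i hi, mul_zero]

theorem order_C_mul {c : ℂ} (hc : c ≠ 0) {f : LS} (hf : f ≠ 0) :
    (C c * f).order = f.order := by
  rw [order_mul ((map_ne_zero C).2 hc) hf, order_C, zero_add]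

/-- Elements of `R` of order `≥ 0` are constants. -/
theorem const_of_ge {R : Set LS} (hR : IsAlg R)
    (h1 : ∀ r ∈ R, (∀ i : ℤ, i ≤ 0 → r.coeff i = 0) → r = 0) (x : LS) (hx : x ∈ R)
    (h : Ge x 0) : x = C (x.coeff 0) := by
  rw [← sub_eq_zero]
  refine h1 _ (hR.sub_mem _ _ hx (hR.C_mem _)) fun i hi => ?_
  rcases lt_or_eq_of_le hi with hi | hi
  · rw [coeff_sub, h i hi, ge_C _ i hi, sub_zero]
  · rw [hi, coeff_sub, C_apply, coeff_single_same, sub_self]

theorem order_nonpos {R : Set LS}
    (h1 : ∀ r ∈ R, (∀ i : ℤ, i ≤ 0 → r.coeff i = 0) → r = 0) (x : LS) (hx : x ∈ R)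
    (h : x ≠ 0) : x.order ≤ 0 := by
  by_contra hlt
  exact h (h1 x hx fun i hi => coeff_eq_zero_of_lt_order (by omega))

/-- In a relation `x + y + z + w = 1`, no term can dominate. -/
theorem dom {x y z w : LS} (h : x + y + z + w = 1) (hx : x ≠ 0) (h0 : x.order < 0)
    (hy : Ge y (x.order + 1)) (hz : Ge z (x.order + 1)) (hw : Ge w (x.order + 1)) : False := by
  have h2 := congrArg (fun f : LS => f.coeff x.order) h
  simp only [coeff_add] at h2
  rw [hy _ (by omega), hz _ (by omega), hw _ (by omega), ge_one _ h0, add_zero, add_zero,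
    add_zero] at h2
  exact hx (coeff_order_eq_zero.1 h2)

theorem two_orders {a b : ℤ} (ha : a ≤ 0) (hb : b ≤ 0) (h : a + b = 0) : a = 0 ∧ b = 0 := by
  omega

/-- Either all four functions are constant, or their pole orders are governed by two integers. -/
theorem degrees {R : Set LS}
    (h1 : ∀ r ∈ R, (∀ i : ℤ, i ≤ 0 → r.coeff i = 0) → r = 0) (t u v e : LS)
    (ht : t ∈ R) (hu : u ∈ R) (hv : v ∈ R) (he : e ∈ R)
    (e1 : t * v - e * u ^ 2 = 1)
    (e2 : C 16 * (u * t ^ 2) + e * v - C 6 * (e * u) - C 3 * t = 1) :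
    (Ge t 0 ∧ Ge u 0 ∧ Ge v 0 ∧ Ge e 0) ∨
    (t ≠ 0 ∧ u ≠ 0 ∧ v ≠ 0 ∧ e ≠ 0 ∧ ∃ n k : ℤ, 0 < k ∧ v.order = -n ∧ u.order = -(n - k) ∧
      t.order = -(3 * k - n) ∧ e.order = -(5 * k - 2 * n)) := by
  have hC : ∀ {a : ℕ} [a.AtLeastTwo] , (C (OfNat.ofNat a : ℂ) : LS) ≠ 0 := by
    intro a _
    exact (map_ne_zero C).2 (OfNat.ofNat_ne_zero a)
  by_cases he0 : e = 0
  · left
    subst he0
    have htv : t * v = 1 := by linear_combination e1
    have ht0 : t ≠ 0 := left_ne_zero_of_mul_eq_one htv
    have hv0 : v ≠ 0 := right_ne_zero_of_mul_eq_one htv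
    have ho := congrArg HahnSeries.order htv
    rw [order_mul ht0 hv0, order_one] at ho
    obtain ⟨h3, h4⟩ := two_orders (order_nonpos h1 t ht ht0) (order_nonpos h1 v hv hv0) ho
    have hGt : Ge t 0 := by rw [← h3]; exact ge_order t
    have hGv : Ge v 0 := by rw [← h4]; exact ge_order v
    refine ⟨hGt, ?_, hGv, ge_zero 0⟩
    by_cases hu0 : u = 0
    · rw [hu0]; exact ge_zero 0
    · have h5 : C 16 * (u * t ^ 2) = 1 + C 3 * t := by linear_combination e2
      have h6 : Ge (C 16 * (u * t ^ 2)) 0 := by rw [h5]; exact ge_one.add (hGt.C_mul 3)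
      have h7 := h6.le_order (mul_ne_zero hC (mul_ne_zero hu0 (pow_ne_zero 2 ht0)))
      rw [order_C_mul (by norm_num) (mul_ne_zero hu0 (pow_ne_zero 2 ht0)),
        order_mul hu0 (pow_ne_zero 2 ht0), order_pow, h3] at h7
      exact (ge_order u).mono (by simpa using h7)
  by_cases hu0 : u = 0
  · left
    subst hu0
    have htv : t * v = 1 := by linear_combination e1
    have ht0 : t ≠ 0 := left_ne_zero_of_mul_eq_one htv
    have hv0 : v ≠ 0 := right_ne_zero_of_mul_eq_one htv
    have ho := congrArg HahnSeries.order htv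
    rw [order_mul ht0 hv0, order_one] at ho
    obtain ⟨h3, h4⟩ := two_orders (order_nonpos h1 t ht ht0) (order_nonpos h1 v hv hv0) ho
    have hGt : Ge t 0 := by rw [← h3]; exact ge_order t
    have hGv : Ge v 0 := by rw [← h4]; exact ge_order v
    refine ⟨hGt, ge_zero 0, hGv, ?_⟩
    have h5 : e * v = 1 + C 3 * t := by linear_combination e2
    have h6 : Ge (e * v) 0 := by rw [h5]; exact ge_one.add (hGt.C_mul 3)
    have h7 := h6.le_order (mul_ne_zero he0 hv0)
    rw [order_mul he0 hv0, h4] at h7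
    exact (ge_order e).mono (by omega)
  by_cases ht0 : t = 0
  · left
    subst ht0
    have heu : e * u ^ 2 = -1 := by linear_combination -e1
    have ho := congrArg HahnSeries.order heu
    rw [order_mul he0 (pow_ne_zero 2 hu0), order_pow, order_neg, order_one] at ho
    have h2 := order_nonpos h1 e he he0
    have h3 := order_nonpos h1 u hu hu0
    simp only [nsmul_eq_mul, Nat.cast_ofNat] at ho
    have hGe : Ge e 0 := (ge_order e).mono (by omega)
    have hGu : Ge u 0 := (ge_order u).mono (by omega)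
    refine ⟨ge_zero 0, hGu, ?_, hGe⟩
    by_cases hv0 : v = 0
    · rw [hv0]; exact ge_zero 0
    · have h5 : e * v = 1 + C 6 * (e * u) := by linear_combination e2
      have h6 : Ge (e * v) 0 := by
        rw [h5]; exact ge_one.add ((hGe.mul hGu).C_mul 6)
      have h7 := h6.le_order (mul_ne_zero he0 hv0)
      rw [order_mul he0 hv0] at h7
      exact (ge_order v).mono (by omega)
  by_cases hv0 : v = 0
  · left
    subst hv0
    have heu : e * u ^ 2 = -1 := by linear_combination -e1
    have ho := congrArg HahnSeries.order heu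
    rw [order_mul he0 (pow_ne_zero 2 hu0), order_pow, order_neg, order_one] at ho
    have h2 := order_nonpos h1 e he he0
    have h3 := order_nonpos h1 u hu hu0
    simp only [nsmul_eq_mul, Nat.cast_ofNat] at ho
    have hGe : Ge e 0 := (ge_order e).mono (by omega)
    have hGu : Ge u 0 := (ge_order u).mono (by omega)
    refine ⟨?_, hGu, ge_zero 0, hGe⟩
    have h4 := order_nonpos h1 t ht ht0
    have h5 : C 16 * (u * t ^ 2) = 1 + C 6 * (e * u) + C 3 * t := by linear_combination e2
    have h6 : Ge (C 16 * (u * t ^ 2)) t.order := by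
      rw [h5]
      exact ((ge_one.mono h4).add (((hGe.mul hGu).C_mul 6).mono (by omega))).add
        ((ge_order t).C_mul 3)
    have h7 := h6.le_order (mul_ne_zero hC (mul_ne_zero hu0 (pow_ne_zero 2 ht0)))
    rw [order_C_mul (by norm_num) (mul_ne_zero hu0 (pow_ne_zero 2 ht0)),
      order_mul hu0 (pow_ne_zero 2 ht0), order_pow] at h7
    simp only [nsmul_eq_mul, Nat.cast_ofNat] at h7
    exact (ge_order t).mono (by omega)
  have ha := order_nonpos h1 t ht ht0
  have hb := order_nonpos h1 u hu hu0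
  have hc := order_nonpos h1 v hv hv0
  have hm := order_nonpos h1 e he he0
  have otv : (t * v).order = t.order + v.order := order_mul ht0 hv0
  have oeu2 : (e * u ^ 2).order = e.order + 2 * u.order := by
    rw [order_mul he0 (pow_ne_zero 2 hu0), order_pow]; simp
  have out : (u * t ^ 2).order = u.order + 2 * t.order := by
    rw [order_mul hu0 (pow_ne_zero 2 ht0), order_pow]; simp
  have oev : (e * v).order = e.order + v.order := order_mul he0 hv0
  have oeu : (e * u).order = e.order + u.order := order_mul he0 hu0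
  have out' : (C 16 * (u * t ^ 2)).order = u.order + 2 * t.order := by
    rw [order_C_mul (by norm_num) (mul_ne_zero hu0 (pow_ne_zero 2 ht0)), out]
  have q1 : ¬ (t.order + v.order < e.order + 2 * u.order) := by
    intro hlt
    refine dom (x := t * v) (y := -(e * u ^ 2)) (z := 0) (w := 0) (by linear_combination e1)
      (mul_ne_zero ht0 hv0) (by omega) ?_ (ge_zero _) (ge_zero _)
    exact ((ge_order _).neg).mono (by omega)
  have q2 : ¬ (e.order + 2 * u.order < t.order + v.order) := by
    intro hlt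
    refine dom (x := -(e * u ^ 2)) (y := t * v) (z := 0) (w := 0) (by linear_combination e1)
      (neg_ne_zero.2 (mul_ne_zero he0 (pow_ne_zero 2 hu0))) (by rw [order_neg]; omega) ?_
      (ge_zero _) (ge_zero _)
    exact (ge_order _).mono (by rw [order_neg]; omega)
  have q3 : ¬ (u.order + 2 * t.order < e.order + v.order ∧
      u.order + 2 * t.order < e.order + u.order ∧ u.order + 2 * t.order < t.order) := by
    rintro ⟨i1, i2, i3⟩
    refine dom (x := C 16 * (u * t ^ 2)) (y := e * v) (z := -(C 6 * (e * u)))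
      (w := -(C 3 * t)) (by linear_combination e2)
      (mul_ne_zero hC (mul_ne_zero hu0 (pow_ne_zero 2 ht0))) (by omega) ?_ ?_ ?_
    · exact (ge_order _).mono (by omega)
    · exact ((ge_order _).C_mul 6).neg.mono (by omega)
    · exact ((ge_order _).C_mul 3).neg.mono (by omega)
  have q4 : ¬ (e.order + v.order < u.order + 2 * t.order ∧
      e.order + v.order < e.order + u.order ∧ e.order + v.order < t.order) := by
    rintro ⟨i1, i2, i3⟩
    refine dom (x := e * v) (y := C 16 * (u * t ^ 2)) (z := -(C 6 * (e * u)))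
      (w := -(C 3 * t)) (by linear_combination e2)
      (mul_ne_zero he0 hv0) (by omega) ?_ ?_ ?_
    · exact (ge_order _).mono (by omega)
    · exact ((ge_order _).C_mul 6).neg.mono (by omega)
    · exact ((ge_order _).C_mul 3).neg.mono (by omega)
  have q5 : ¬ (e.order + u.order < u.order + 2 * t.order ∧
      e.order + u.order < e.order + v.order ∧ e.order + u.order < t.order) := by
    rintro ⟨i1, i2, i3⟩
    have o6 : (-(C 6 * (e * u))).order = e.order + u.order := by
      rw [order_neg, order_C_mul (by norm_num) (mul_ne_zero he0 hu0), oeu]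
    refine dom (x := -(C 6 * (e * u))) (y := C 16 * (u * t ^ 2)) (z := e * v)
      (w := -(C 3 * t)) (by linear_combination e2)
      (neg_ne_zero.2 (mul_ne_zero hC (mul_ne_zero he0 hu0))) (by omega) ?_ ?_ ?_
    · exact (ge_order _).mono (by omega)
    · exact (ge_order _).mono (by omega)
    · exact ((ge_order _).C_mul 3).neg.mono (by omega)
  by_cases hall : t.order = 0 ∧ u.order = 0 ∧ v.order = 0 ∧ e.order = 0
  · left
    obtain ⟨i1, i2, i3, i4⟩ := hall
    exact ⟨(ge_order t).mono (by omega), (ge_order u).mono (by omega),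
      (ge_order v).mono (by omega), (ge_order e).mono (by omega)⟩
  · right
    refine ⟨ht0, hu0, hv0, he0, -v.order, u.order - v.order, ?_, ?_, ?_, ?_, ?_⟩ <;> omega

end Pool.Agent.H90.Ram
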