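import Mathlib
import Pool.Agent.H90.Ram.Degrees

/-!
# Ramanujam's surface has no nonconstant points in a ring with one place at infinity
-/

set_option autoImplicit false

namespace Pool.Agent.H90.Ram

open HahnSeries

theorem theta_one : theta 1 = 0 := by
  have := theta_C 1
  rwa [map_one] at this

theorem theta_inv {x : LS} (hx : x ≠ 0) : theta x⁻¹ = -(theta x * x⁻¹ * x⁻¹) := by
  have h : theta (x * x⁻¹) = 0 := by rw [mul_inv_cancel₀ hx, theta_one]
  rw [theta_mul] at h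
  have h2 : x⁻¹ * (x * theta x⁻¹) = -(theta x * x⁻¹ * x⁻¹) := by
    linear_combination x⁻¹ * h
  rwa [← mul_assoc, inv_mul_cancel₀ hx, one_mul] at h2

theorem order_inv' {x : LS} (hx : x ≠ 0) : (x⁻¹).order = -x.order := by
  have h := order_mul hx (inv_ne_zero hx)
  rw [mul_inv_cancel₀ hx, order_one] at h
  omega

theorem c0_theta (f : LS) : (theta f).coeff 0 = 0 := by
  rw [theta_coeff]; simp

theorem log_ge {x : LS} (hx : x ≠ 0) : Ge (theta x * x⁻¹) 0 := by
  have h := (ge_order x).theta.mul (ge_order x⁻¹)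
  rw [order_inv' hx, add_neg_cancel] at h
  exact h

theorem log_coeff {x : LS} (hx : x ≠ 0) : (theta x * x⁻¹).coeff 0 = (x.order : ℂ) := by
  have h := (ge_order x).theta.coeff_mul (ge_order x⁻¹)
  have h2 := (ge_order x).coeff_mul (ge_order x⁻¹)
  rw [order_inv' hx, add_neg_cancel] at h h2
  rw [mul_inv_cancel₀ hx, coeff_one, if_pos rfl] at h2
  rw [h, theta_coeff, mul_assoc, ← h2, mul_one]

theorem Ge.mul_coeff_zero {f g : LS} (hf : Ge f 1) (hg : Ge g 0) : (f * g).coeff 0 = 0 :=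
  (hf.mul hg) 0 (by norm_num)

/-- First relation. -/
theorem rel_one {R : Set LS} (hR : IsAlg R)
    (hres : ∀ f ∈ R, ∀ g ∈ R, (f * theta g).coeff 0 = 0) (t u v e : LS)
    (ht : t ∈ R) (hu : u ∈ R) (hv : v ∈ R) (he : e ∈ R)
    (e1 : t * v - e * u ^ 2 = 1)
    (e2 : 16 * (u * t ^ 2) + e * v - 6 * (e * u) - 3 * t = 1)
    (hu0 : u ≠ 0) (hv0 : v ≠ 0) (he0 : e ≠ 0) (n k : ℤ) (hk : 0 < k)
    (ov : v.order = -n) (ou : u.order = -(n - k)) (ot : t.order = -(3 * k - n))
    (oe : e.order = -(5 * k - 2 * n)) : 3 * n = 5 * k := by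
  obtain ⟨Y, hY⟩ : ∃ Y : LS, Y = e * v - 4 * (e * u) - t := ⟨_, rfl⟩
  obtain ⟨w, hw⟩ : ∃ w : LS, w = v - 5 * u := ⟨_, rfl⟩
  obtain ⟨b, hb⟩ : ∃ b : LS, b = 3 * v - 16 * u := ⟨_, rfl⟩
  have hnum : ∀ (a : ℕ) [a.AtLeastTwo], (OfNat.ofNat a : LS) ∈ R := fun a _ => by
    have := hR.C_mem (OfNat.ofNat a)
    rwa [map_ofNat] at this
  have hYR : Y ∈ R := by
    rw [hY]
    exact hR.sub_mem _ _ (hR.sub_mem _ _ (hR.mul_mem _ _ he hv)
      (hR.mul_mem _ _ (hnum 4) (hR.mul_mem _ _ he hu))) ht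
  have hwR : w ∈ R := by
    rw [hw]
    exact hR.sub_mem _ _ hv (hR.mul_mem _ _ (hnum 5) hu)
  have hbR : b ∈ R := by
    rw [hb]
    exact hR.sub_mem _ _ (hR.mul_mem _ _ (hnum 3) hv) (hR.mul_mem _ _ (hnum 16) hu)
  have hew2 : e * w ^ 2 ∈ R := by
    rw [pow_two]
    exact hR.mul_mem _ _ he (hR.mul_mem _ _ hwR hwR)
  have hG : Y * (5 * (e * w ^ 2) - b * Y) = 1 + 2 * (e ^ 2 * w ^ 3) := by
    rw [hY, hw, hb]
    linear_combination e2 + (e * v - 6 * (e * u) - 3 * t) * e1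
  -- order of Y
  have oev : (e * v).order = -(5 * k - n) := by
    rw [order_mul he0 hv0, oe, ov]; ring
  have hYge : Ge Y (-(5 * k - n)) := by
    rw [hY]
    refine Ge.sub (Ge.sub ?_ ?_) ?_
    · rw [← oev]; exact ge_order _
    · have : Ge (C 4 * (e * u)) (-(5 * k - n)) := by
        refine Ge.C_mul 4 ((ge_order _).mono ?_)
        rw [order_mul he0 hu0, oe, ou]; omega
      rwa [map_ofNat] at this
    · refine (ge_order t).mono ?_
      rw [ot]; omega
  have hYc : Y.coeff (-(5 * k - n)) ≠ 0 := by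
    have i1 : (e * u).coeff (-(5 * k - n)) = 0 := by
      refine ge_order (e * u) _ ?_
      rw [order_mul he0 hu0, oe, ou]; omega
    have i2 : t.coeff (-(5 * k - n)) = 0 := by
      refine ge_order t _ ?_
      rw [ot]; omega
    have i3 : (4 * (e * u) : LS) = C 4 * (e * u) := by rw [map_ofNat]
    rw [hY, coeff_sub, coeff_sub, i2, sub_zero, i3, coeff_C_mul, i1, mul_zero, sub_zero, ← oev]
    exact fun h => mul_ne_zero he0 hv0 (coeff_order_eq_zero.1 h)
  have hY0 : Y ≠ 0 := by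
    rintro rfl
    exact hYc rfl
  have oY : Y.order = -(5 * k - n) :=
    le_antisymm (order_le_of_coeff_ne_zero hYc) (hYge.le_order hY0)
  -- the regular form
  obtain ⟨W, hW⟩ : ∃ W : LS, W =
      (5 * theta Y - 4 * (w * theta e) - 6 * (e * theta w)) * (5 * (e * w ^ 2) - b * Y) +
        2 * (e * w) * (5 * theta (e * w ^ 2) - 2 * (b * theta Y) - Y * theta b) := ⟨_, rfl⟩
  have hnumC : ∀ (a : ℕ) [a.AtLeastTwo] (f : LS), ((OfNat.ofNat a : LS) * f).coeff 0 =
      (OfNat.ofNat a : ℂ) * f.coeff 0 := fun a _ f => by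
    have := coeff_C_mul (OfNat.ofNat a) f 0
    rwa [map_ofNat] at this
  have hW0 : W.coeff 0 = 0 := by
    have hq : (5 * (e * w ^ 2) - b * Y) ∈ R :=
      hR.sub_mem _ _ (hR.mul_mem _ _ (hnum 5) hew2) (hR.mul_mem _ _ hbR hYR)
    have a1 := hres _ hq _ hYR
    have a2 := hres _ (hR.mul_mem _ _ hwR hq) _ he
    have a3 := hres _ (hR.mul_mem _ _ he hq) _ hwR
    have a4 := hres _ (hR.mul_mem _ _ he hwR) _ hew2
    have a5 := hres _ (hR.mul_mem _ _ (hR.mul_mem _ _ he hwR) hbR) _ hYR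
    have a6 := hres _ (hR.mul_mem _ _ (hR.mul_mem _ _ he hwR) hYR) _ hbR
    have hWe : W = 5 * ((5 * (e * w ^ 2) - b * Y) * theta Y) -
        4 * ((w * (5 * (e * w ^ 2) - b * Y)) * theta e) -
        6 * ((e * (5 * (e * w ^ 2) - b * Y)) * theta w) +
        10 * ((e * w) * theta (e * w ^ 2)) - 4 * ((e * w * b) * theta Y) -
        2 * ((e * w * Y) * theta b) := by
      rw [hW]; ring
    rw [hWe]
    simp only [coeff_sub, coeff_add, hnumC, a1, a2, a3, a4, a5, a6, mul_zero, sub_zero, add_zero]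
  have hYW : Y * W = 5 * theta Y - 4 * (w * theta e) - 6 * (e * theta w) := by
    have hT := congrArg theta hG
    have t1 : theta (e * w ^ 2) = theta e * w ^ 2 + e * (2 * (w * theta w)) := by
      rw [theta_mul, pow_two, theta_mul]; ring
    have t2 : theta (e ^ 2 * w ^ 3) =
        2 * (e * theta e) * w ^ 3 + e ^ 2 * (3 * (w ^ 2 * theta w)) := by
      rw [theta_mul, pow_two, theta_mul, show w ^ 3 = w * (w * w) by ring, theta_mul, theta_mul]
      ring
    have t3 : ∀ (a : ℕ) [a.AtLeastTwo] (f : LS), theta ((OfNat.ofNat a : LS) * f) =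
        (OfNat.ofNat a : LS) * theta f := fun a _ f => by
      have := theta_C_mul (OfNat.ofNat a) f
      rwa [map_ofNat] at this
    rw [theta_mul, theta_sub, t3, theta_mul b Y, theta_add, theta_one, t3, t1, t2, zero_add] at hT
    rw [hW, t1]
    linear_combination (5 * theta Y - 4 * (w * theta e) - 6 * (e * theta w)) * hG +
      2 * (e * w) * hT
  have hWdiv : 3 * W = (1 + 6 * ((t - e * u) * Y⁻¹)) * (theta e * e⁻¹ - 3 * (theta Y * Y⁻¹)) +
      5 * (theta e * e⁻¹) - theta (18 * (e * w * Y⁻¹)) := by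
    have t3 : theta (18 * (e * w * Y⁻¹)) = 18 * theta (e * w * Y⁻¹) := by
      have := theta_C_mul 18 (e * w * Y⁻¹)
      rwa [map_ofNat] at this
    rw [t3, theta_mul, theta_mul, theta_inv hY0]
    have hW2 : W = (5 * theta Y - 4 * (w * theta e) - 6 * (e * theta w)) * Y⁻¹ := by
      rw [← hYW]; field_simp
    have hxi : t - e * u = e * w - Y := by rw [hY, hw]; ring
    rw [hW2, hxi]
    field_simp
    ring
  have hc := congrArg (fun f : LS => f.coeff 0) hWdiv
  simp only [hnumC, hW0, mul_zero] at hc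
  rw [coeff_sub, c0_theta, sub_zero, coeff_add, hnumC, log_coeff he0, add_mul, one_mul,
    coeff_add, coeff_sub, log_coeff he0, hnumC, log_coeff hY0] at hc
  have hA : Ge ((t - e * u) * Y⁻¹) 1 := by
    have i1 : Ge (t - e * u) (-(5 * k - n) + 1) := by
      refine Ge.sub ((ge_order t).mono ?_) ((ge_order _).mono ?_)
      · rw [ot]; omega
      · rw [order_mul he0 hu0, oe, ou]; omega
    have i2 := i1.mul (ge_order Y⁻¹)
    rw [order_inv' hY0, oY] at i2
    exact i2.mono (by omega)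
  have hB : Ge (theta e * e⁻¹ - 3 * (theta Y * Y⁻¹)) 0 := by
    refine (log_ge he0).sub ?_
    have := (log_ge hY0).C_mul 3
    rwa [map_ofNat] at this
  have hz : (6 * ((t - e * u) * Y⁻¹) * (theta e * e⁻¹ - 3 * (theta Y * Y⁻¹))).coeff 0 = 0 := by
    rw [mul_assoc, hnumC, hA.mul_coeff_zero hB, mul_zero]
  rw [hz, add_zero, oe, oY] at hc
  push_cast at hc
  have h3 : ((3 * n : ℤ) : ℂ) = ((5 * k : ℤ) : ℂ) := by
    push_cast
    linear_combination (1 / 3 : ℂ) * (-hc)
  exact_mod_cast h3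

/-- Second relation. -/
theorem rel_two {R : Set LS} (hR : IsAlg R)
    (hres : ∀ f ∈ R, ∀ g ∈ R, (f * theta g).coeff 0 = 0) (t u v e : LS)
    (ht : t ∈ R) (hu : u ∈ R) (hv : v ∈ R) (he : e ∈ R)
    (e1 : t * v - e * u ^ 2 = 1)
    (e2 : 16 * (u * t ^ 2) + e * v - 6 * (e * u) - 3 * t = 1)
    (ht0 : t ≠ 0) (hu0 : u ≠ 0) (he0 : e ≠ 0) (n k : ℤ) (hk : 0 < k)
    (hnk : n < 2 * k)
    (ou : u.order = -(n - k)) (ot : t.order = -(3 * k - n))
    (oe : e.order = -(5 * k - 2 * n)) : n = 2 * k := by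
  obtain ⟨s, hs⟩ : ∃ s : LS, s = e * u * t⁻¹ := ⟨_, rfl⟩
  have hs0 : s ≠ 0 := by
    rw [hs]; exact mul_ne_zero (mul_ne_zero he0 hu0) (inv_ne_zero ht0)
  have os : s.order = -k := by
    rw [hs, order_mul (mul_ne_zero he0 hu0) (inv_ne_zero ht0), order_mul he0 hu0,
      order_inv' ht0, oe, ou, ot]
    ring
  have hnumC : ∀ (a : ℕ) [a.AtLeastTwo] (f : LS), ((OfNat.ofNat a : LS) * f).coeff 0 =
      (OfNat.ofNat a : ℂ) * f.coeff 0 := fun a _ f => by
    have := coeff_C_mul (OfNat.ofNat a) f 0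
    rwa [map_ofNat] at this
  have hmu : (u * theta (e * u) - v * theta t).coeff 0 = 0 := by
    rw [coeff_sub, hres _ hu _ (hR.mul_mem _ _ he hu), hres _ hv _ ht, sub_zero]
  have hut0 : u * t ≠ 0 := mul_ne_zero hu0 ht0
  have hths : theta s = theta (e * u) * t⁻¹ - e * u * (theta t * t⁻¹ * t⁻¹) := by
    rw [hs, theta_mul, theta_inv ht0]; ring
  have hlam : u * t * theta s = (u * theta (e * u) - v * theta t) + theta t * t⁻¹ := by
    have hT : t * t⁻¹ = 1 := mul_inv_cancel₀ ht0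
    rw [hths]
    linear_combination (u * theta (e * u) - e * u ^ 2 * theta t * t⁻¹ - v * theta t) * hT +
      theta t * t⁻¹ * e1
  have hl0 : (u * t * theta s).coeff 0 = ((-(3 * k - n) : ℤ) : ℂ) := by
    rw [hlam, coeff_add, hmu, log_coeff ht0, zero_add, ot]
  have hrel : s ^ 2 + 16 * (u * t) = t⁻¹ - s * (u * t)⁻¹ + 6 * s + 3 := by
    have hT : t * t⁻¹ = 1 := mul_inv_cancel₀ ht0
    have hU : u * u⁻¹ = 1 := mul_inv_cancel₀ hu0
    rw [hs, mul_inv]
    linear_combination t⁻¹ * e2 + e * t⁻¹ ^ 2 * hU - e * t⁻¹ ^ 2 * e1 +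
      (e * t⁻¹ * v - 16 * (u * t) + 3) * hT
  have h16 : 16 * (u * t * theta s) = t⁻¹ * theta s - s ^ 2 * theta s -
      (s ^ 2 * (u * t)⁻¹) * (theta s * s⁻¹) + 6 * (s * theta s) + 3 * theta s := by
    have e3 : (s ^ 2 * (u * t)⁻¹) * (theta s * s⁻¹) = s * (u * t)⁻¹ * theta s := by
      field_simp
    rw [e3]
    linear_combination theta s * hrel
  have hc := congrArg (fun f : LS => f.coeff 0) h16
  simp only [coeff_add, coeff_sub, hnumC, c0_theta, hl0] at hc
  have c1 : (s * theta s).coeff 0 = 0 := by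
    have h := c0_theta (s * s)
    rw [theta_mul, show theta s * s + s * theta s = 2 * (s * theta s) by ring, hnumC] at h
    exact (mul_eq_zero.1 h).resolve_left (by norm_num)
  have c2 : (s ^ 2 * theta s).coeff 0 = 0 := by
    have h := c0_theta (s * (s * s))
    rw [theta_mul, theta_mul, show theta s * (s * s) + s * (theta s * s + s * theta s) =
      3 * (s ^ 2 * theta s) by ring, hnumC] at h
    exact (mul_eq_zero.1 h).resolve_left (by norm_num)
  have c3 : (t⁻¹ * theta s).coeff 0 = 0 := by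
    have h := (ge_order t⁻¹).mul (ge_order s).theta
    rw [order_inv' ht0, ot, os] at h
    exact h 0 (by omega)
  have hutinv : Ge (u * t)⁻¹ (2 * k) := by
    refine (ge_order _).mono ?_
    rw [order_inv' hut0, order_mul hu0 ht0, ou, ot]
    omega
  have hr : Ge (s ^ 2 + 16 * (u * t)) (-k) := by
    rw [hrel]
    refine Ge.add (Ge.add (Ge.sub ?_ ?_) ?_) ?_
    · refine (ge_order _).mono ?_
      rw [order_inv' ht0, ot]; omega
    · have h := (ge_order s).mul hutinv
      rw [os] at h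
      exact h.mono (by omega)
    · have h := (ge_order s).C_mul 6
      rw [map_ofNat, os] at h
      exact h
    · have h := ge_C 3
      rw [map_ofNat] at h
      exact h.mono (by omega)
  have hr2 : Ge ((s ^ 2 + 16 * (u * t)) * (u * t)⁻¹) 1 := (hr.mul hutinv).mono (by omega)
  have hr3 : (s ^ 2 + 16 * (u * t)) * (u * t)⁻¹ = s ^ 2 * (u * t)⁻¹ + 16 := by
    field_simp
  have c4 : (s ^ 2 * (u * t)⁻¹).coeff 0 = -16 := by
    have h := hr2 0 (by norm_num)
    rw [hr3, coeff_add] at h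
    have h16' : (16 : LS).coeff 0 = 16 := by
      have h2 : (16 : LS) = C 16 := (map_ofNat C 16).symm
      rw [h2, C_apply, coeff_single_same]
    rw [h16'] at h
    linear_combination h
  have c5 : ((s ^ 2 * (u * t)⁻¹) * (theta s * s⁻¹)).coeff 0 = 16 * (k : ℂ) := by
    have hg : Ge (s ^ 2 * (u * t)⁻¹) 0 := by
      have h := ((ge_order s).mul (ge_order s)).mul hutinv
      rw [os, ← pow_two] at h
      exact h.mono (by omega)
    have h := hg.coeff_mul (log_ge hs0)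
    rw [add_zero, c4, log_coeff hs0, os] at h
    rw [h]
    push_cast
    ring
  rw [c1, c2, c3, c5] at hc
  have h3 : ((n : ℤ) : ℂ) = ((2 * k : ℤ) : ℂ) := by
    push_cast at hc ⊢
    linear_combination (1 / 16 : ℂ) * hc
  exact_mod_cast h3

/-- **Core theorem.** In a ring with one place at infinity, the equations of Ramanujam's surface
have only constant solutions. -/
theorem core {R : Set LS} (hR : IsAlg R)
    (h1 : ∀ r ∈ R, (∀ i : ℤ, i ≤ 0 → r.coeff i = 0) → r = 0) (N0 : ℕ)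
    (hN0 : ∀ j, N0 ≤ j → j ∈ degSet R) (t u v e : LS)
    (ht : t ∈ R) (hu : u ∈ R) (hv : v ∈ R) (he : e ∈ R)
    (e1 : t * v - e * u ^ 2 = 1)
    (e2 : 16 * (u * t ^ 2) + e * v - 6 * (e * u) - 3 * t = 1) :
    Ge t 0 ∧ Ge u 0 ∧ Ge v 0 ∧ Ge e 0 := by
  have hres : ∀ f ∈ R, ∀ g ∈ R, (f * theta g).coeff 0 = 0 := fun f hf g hg =>
    residue hR h1 N0 hN0 f g hf hg
  have e2' : C 16 * (u * t ^ 2) + e * v - C 6 * (e * u) - C 3 * t = 1 := by
    rw [map_ofNat, map_ofNat, map_ofNat]; exact e2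
  rcases degrees h1 t u v e ht hu hv he e1 e2' with h |
    ⟨ht0, hu0, hv0, he0, n, k, hk, ov, ou, ot, oe⟩
  · exact h
  · have r1 := rel_one hR hres t u v e ht hu hv he e1 e2 hu0 hv0 he0 n k hk ov ou ot oe
    have r2 := rel_two hR hres t u v e ht hu hv he e1 e2 ht0 hu0 he0 n k hk (by omega) ou ot oe
    omega

end Pool.Agent.H90.Ram
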