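import Mathlib

/-!
# Ramanujam's surface and once-punctured curves: definitions
-/

set_option autoImplicit false

namespace Pool.Agent.H90.Ram

/-- `B` is the coordinate ring of an irreducible affine curve over `ℂ` whose normalization is a
smooth projective curve with exactly one point removed: `B` has transcendence degree one over
`ℂ`, and exactly one valuation ring of its field of fractions which contains `ℂ` does not
contain `B`. -/
def OncePunctured (B : Type) [CommRing B] [IsDomain B] [Algebra ℂ B] : Prop :=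
  Algebra.trdeg ℂ B = 1 ∧
    ∃! O : ValuationSubring (FractionRing B),
      (∀ c : ℂ, algebraMap ℂ (FractionRing B) c ∈ O) ∧
        ∃ b : B, algebraMap B (FractionRing B) b ∉ O

open MvPolynomial in
/-- The first equation `t v - e u ^ 2 = 1`, in the variables `(t, u, v, e)`. -/
noncomputable def eqOne : MvPolynomial (Fin 4) ℂ := X 0 * X 2 - X 3 * X 1 ^ 2 - 1

open MvPolynomial in
/-- The second equation `16 u t ^ 2 + e v - 6 e u - 3 t = 1`. -/
noncomputable def eqTwo : MvPolynomial (Fin 4) ℂ :=
  16 * X 1 * X 0 ^ 2 + X 3 * X 2 - 6 * X 3 * X 1 - 3 * X 0 - 1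

/-- The coordinate ring of the affine surface `eqOne = eqTwo = 0` in `ℂ⁴`. -/
abbrev RamanujamRing : Type := MvPolynomial (Fin 4) ℂ ⧸ Ideal.span {eqOne, eqTwo}

/-- The complex points of the affine surface `eqOne = eqTwo = 0` in `ℂ⁴`. -/
def RamanujamSet : Set (Fin 4 → ℂ) :=
  {x | MvPolynomial.eval x eqOne = 0 ∧ MvPolynomial.eval x eqTwo = 0}

/-- The ternary quadratic form of the conic. -/
def conic (L : Fin 3 → ℂ) : ℂ := L 1 * L 2 - L 0 ^ 2

/-- The ternary cubic form of the cuspidal cubic. -/
def cubic (L : Fin 3 → ℂ) : ℂ := 16 * L 0 * L 1 ^ 2 + conic L * (L 2 - 6 * L 0 - 3 * L 1)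

/-- `(L, w)` are homogeneous coordinates of a point of the blow-up of the projective plane at the
point `(0 : 1 : 0)`, a surface in `ℙ² × ℙ¹`. -/
def OnBlowup (L : Fin 3 → ℂ) (w : Fin 2 → ℂ) : Prop :=
  L ≠ 0 ∧ w ≠ 0 ∧ L 0 * w 1 = L 2 * w 0

/-- The bihomogeneous form of the proper transform of the conic in the blow-up. -/
def conicT (L : Fin 3 → ℂ) (w : Fin 2 → ℂ) : ℂ := L 1 * w 1 - L 0 * w 0

/-- The bihomogeneous form of the proper transform of the cubic in the blow-up. -/
def cubicT (L : Fin 3 → ℂ) (w : Fin 2 → ℂ) : ℂ :=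
  16 * w 0 * L 1 ^ 2 + conicT L w * (L 2 - 6 * L 0 - 3 * L 1)

/-- The surface `RamanujamSet` is Ramanujam's surface: the map
`(t, u, v, e) ↦ ((e u : t : e v), (u : v))` is a bijection from it onto the complement, in the
blow-up of the plane at a point `p`, of the proper transforms of a cuspidal cubic and a conic
which meet at `p` with multiplicity one and at one further point with multiplicity five. -/
structure IsRamanujamSurface : Prop where
  /-- In suitable coordinates the cubic is `y ^ 2 * z = x ^ 3`. -/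
  cusp : ∀ x y z : ℂ, cubic ![z - 21 * x + 20 * y, z - 3 * x + 2 * y, 5 * z - 87 * x + 190 * y] =
    11664 * (y ^ 2 * z - x ^ 3)
  /-- The conic meets the cubic, parametrized by `(s : 1 : s ^ 3)`, at `s = 1` with multiplicity
  five and at `s = -5` (the point `p`) with multiplicity one. -/
  contact : ∀ s : ℂ, conic ![s ^ 3 - 21 * s + 20, s ^ 3 - 3 * s + 2, 5 * s ^ 3 - 87 * s + 190] =
    4 * (s - 1) ^ 5 * (s + 5)
  /-- On the blow-up, with `(L 0, L 2) = r (w 0, w 1)`, the two forms are the pullbacks of the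
  conic and the cubic divided by the equation `r` of the exceptional curve. -/
  transform : ∀ (L : Fin 3 → ℂ) (w : Fin 2 → ℂ) (r : ℂ), L 0 = r * w 0 → L 2 = r * w 1 →
    conic L = r * conicT L w ∧ cubic L = r * cubicT L w
  /-- The map takes values in the complement of the two proper transforms. -/
  mapsTo : ∀ x ∈ RamanujamSet, OnBlowup ![x 3 * x 1, x 0, x 3 * x 2] ![x 1, x 2] ∧
    conicT ![x 3 * x 1, x 0, x 3 * x 2] ![x 1, x 2] ≠ 0 ∧
    cubicT ![x 3 * x 1, x 0, x 3 * x 2] ![x 1, x 2] ≠ 0
  /-- The map is a bijection onto that complement. -/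
  bijective : ∀ (L : Fin 3 → ℂ) (w : Fin 2 → ℂ), OnBlowup L w → conicT L w ≠ 0 →
    cubicT L w ≠ 0 → ∃! x : Fin 4 → ℂ, x ∈ RamanujamSet ∧
      ∃ a b : ℂ, a ≠ 0 ∧ b ≠ 0 ∧ ![x 3 * x 1, x 0, x 3 * x 2] = a • L ∧ ![x 1, x 2] = b • w

/-- The surface is smooth: at each of its points the gradients of the two equations are linearly
independent. -/
def IsSmoothSurface : Prop :=
  ∀ x ∈ RamanujamSet, LinearIndependent ℂ
    ![fun i : Fin 4 => MvPolynomial.eval x (MvPolynomial.pderiv i eqOne),
      fun i : Fin 4 => MvPolynomial.eval x (MvPolynomial.pderiv i eqTwo)]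

end Pool.Agent.H90.Ram
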