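import Mathlib
import Pool.Agent.H90.Ram.Degrees

/-!
# Power series expansions in a discrete valuation ring with residue field `ℂ`
-/

set_option autoImplicit false

namespace Pool.Agent.H90.Ram

open PowerSeries

/-- Data for power series expansions: a domain `D` with constants `sig`, evaluation `rho` and a
parameter `p`. -/
structure ExpData (D : Type*) [CommRing D] [IsDomain D] where
  rho : D →+* ℂ
  sig : ℂ →+* D
  p : D
  rho_sig : ∀ c, rho (sig c) = c
  p_ne : p ≠ 0
  rho_p : rho p = 0
  ker : ∀ x, rho x = 0 → ∃ y, x = p * y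

variable {D : Type*} [CommRing D] [IsDomain D]

theorem ExpData.exists_tail (d : ExpData D) (x : D) : ∃ y, x = d.sig (d.rho x) + d.p * y := by
  obtain ⟨y, hy⟩ := d.ker (x - d.sig (d.rho x)) (by rw [map_sub, d.rho_sig, sub_self])
  exact ⟨y, by rw [← hy]; ring⟩

/-- The tail of `x`: `x = x(0) + p * tail x`. -/
noncomputable def ExpData.tail (d : ExpData D) (x : D) : D := Classical.choose (d.exists_tail x)

theorem ExpData.tail_spec (d : ExpData D) (x : D) : x = d.sig (d.rho x) + d.p * d.tail x :=
  Classical.choose_spec (d.exists_tail x)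

theorem ExpData.tail_unique (d : ExpData D) (x y : D) (a : ℂ) (h : x = d.sig a + d.p * y) :
    d.tail x = y := by
  have h1 : d.rho x = a := by
    rw [h, map_add, map_mul, d.rho_sig, d.rho_p, zero_mul, add_zero]
  have h2 := d.tail_spec x
  rw [h1] at h2
  have h3 : d.p * d.tail x = d.p * y := by
    have := h2.symm.trans h
    exact add_left_cancel this
  exact mul_left_cancel₀ d.p_ne h3

/-- The coefficients of the expansion. -/
noncomputable def ExpData.cf (d : ExpData D) : ℕ → D → ℂ
  | 0, x => d.rho x
  | n + 1, x => ExpData.cf d n (d.tail x)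

theorem ExpData.tail_add (d : ExpData D) (x y : D) : d.tail (x + y) = d.tail x + d.tail y := by
  refine d.tail_unique _ _ (d.rho x + d.rho y) ?_
  conv_lhs => rw [d.tail_spec x, d.tail_spec y]
  rw [map_add]; ring

theorem ExpData.tail_zero (d : ExpData D) : d.tail 0 = 0 :=
  d.tail_unique _ _ 0 (by rw [map_zero, mul_zero, add_zero])

theorem ExpData.tail_sig (d : ExpData D) (c : ℂ) : d.tail (d.sig c) = 0 :=
  d.tail_unique _ _ c (by rw [mul_zero, add_zero])

theorem ExpData.tail_mul (d : ExpData D) (x y : D) :
    d.tail (x * y) = d.sig (d.rho x) * d.tail y + d.tail x * y := by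
  refine d.tail_unique _ _ (d.rho x * d.rho y) ?_
  rw [map_mul]
  conv_lhs => rw [d.tail_spec x]
  conv_lhs => rw [add_mul]
  conv_lhs => lhs; rw [d.tail_spec y]
  ring

theorem ExpData.cf_zero (d : ExpData D) (n : ℕ) : d.cf n 0 = 0 := by
  induction n with
  | zero => exact map_zero _
  | succ n ih => rw [ExpData.cf, d.tail_zero, ih]

theorem ExpData.cf_add (d : ExpData D) (n : ℕ) :
    ∀ x y : D, d.cf n (x + y) = d.cf n x + d.cf n y := by
  induction n with
  | zero => intro x y; exact map_add _ _ _
  | succ n ih => intro x y; rw [ExpData.cf, d.tail_add, ih]; rfl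

theorem ExpData.cf_sig_mul (d : ExpData D) (n : ℕ) :
    ∀ (c : ℂ) (x : D), d.cf n (d.sig c * x) = c * d.cf n x := by
  induction n with
  | zero => intro c x; rw [ExpData.cf, map_mul, d.rho_sig]; rfl
  | succ n ih =>
    intro c x
    rw [ExpData.cf, d.tail_mul, d.tail_sig, zero_mul, add_zero, d.rho_sig, ih]
    rfl

/-- The expansion as a power series. -/
noncomputable def ExpData.ser (d : ExpData D) (x : D) : ℂ⟦X⟧ := PowerSeries.mk fun n => d.cf n x

theorem ExpData.ser_tail (d : ExpData D) (x : D) :
    d.ser x = PowerSeries.C (d.rho x) + X * d.ser (d.tail x) := by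
  ext n
  cases n with
  | zero =>
    simp [ExpData.ser, ExpData.cf]
  | succ n =>
    rw [map_add, PowerSeries.coeff_succ_X_mul]
    simp [ExpData.ser, ExpData.cf]

theorem ExpData.ser_add (d : ExpData D) (x y : D) : d.ser (x + y) = d.ser x + d.ser y := by
  ext n
  simp [ExpData.ser, d.cf_add]

theorem ExpData.ser_sig_mul (d : ExpData D) (c : ℂ) (x : D) :
    d.ser (d.sig c * x) = PowerSeries.C c * d.ser x := by
  ext n
  simp [ExpData.ser, d.cf_sig_mul]

theorem ExpData.coeff_succ_ser (d : ExpData D) (n : ℕ) (x : D) :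
    PowerSeries.coeff (n + 1) (d.ser x) = PowerSeries.coeff n (d.ser (d.tail x)) := by
  simp [ExpData.ser, ExpData.cf]

theorem ExpData.ser_mul (d : ExpData D) (x y : D) : d.ser (x * y) = d.ser x * d.ser y := by
  ext n
  induction n generalizing x y with
  | zero =>
    rw [PowerSeries.coeff_zero_eq_constantCoeff_apply,
      PowerSeries.coeff_zero_eq_constantCoeff_apply, map_mul]
    simp [ExpData.ser, ExpData.cf]
  | succ n ih =>
    rw [d.coeff_succ_ser, d.tail_mul, d.ser_add, d.ser_sig_mul, map_add, ih,
      PowerSeries.coeff_C_mul]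
    have h : d.ser x * d.ser y = PowerSeries.C (d.rho x) * d.ser y +
        X * (d.ser (d.tail x) * d.ser y) := by
      conv_lhs => lhs; rw [d.ser_tail x]
      ring
    rw [h, map_add, PowerSeries.coeff_C_mul, PowerSeries.coeff_succ_X_mul, d.coeff_succ_ser]

theorem ExpData.ser_sig (d : ExpData D) (c : ℂ) : d.ser (d.sig c) = PowerSeries.C c := by
  rw [d.ser_tail, d.rho_sig, d.tail_sig]
  have : d.ser 0 = 0 := by
    ext n
    simp [ExpData.ser, d.cf_zero]
  rw [this, mul_zero, add_zero]

theorem ExpData.ser_p (d : ExpData D) : d.ser d.p = X := by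
  have h : d.tail d.p = 1 := d.tail_unique _ _ 0 (by rw [map_zero, zero_add, mul_one])
  have h1 : d.ser 1 = 1 := by
    have := d.ser_sig 1
    rwa [map_one, map_one] at this
  rw [d.ser_tail, d.rho_p, h, h1, map_zero, zero_add, mul_one]

/-- The expansion as a ring homomorphism. -/
noncomputable def ExpData.hom (d : ExpData D) : D →+* ℂ⟦X⟧ where
  toFun := d.ser
  map_one' := by
    have := d.ser_sig 1
    rwa [map_one, map_one] at this
  map_zero' := by
    have := d.ser_sig 0
    rwa [map_zero, map_zero] at this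
  map_add' := d.ser_add
  map_mul' := d.ser_mul

theorem ExpData.hom_const (d : ExpData D) (x : D) :
    PowerSeries.constantCoeff (d.hom x) = d.rho x := by
  change PowerSeries.constantCoeff (d.ser x) = _
  rw [d.ser_tail]
  simp

end Pool.Agent.H90.Ram
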