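import Mathlib
import Pool.Agent.H90.Ram.Expand

/-!
# Laurent expansions at a place with residue field `ℂ`
-/

set_option autoImplicit false

namespace Pool.Agent.H90.Ram

open HahnSeries

/-- Laurent expansions of the elements of a field `K` at the place given by a discrete valuation
ring `D` with residue field `ℂ`. -/
theorem exists_laurent (D K : Type*) [CommRing D] [IsDomain D] [IsDiscreteValuationRing D]
    [Field K] [Algebra D K] [IsFractionRing D K] (rho : D →+* ℂ) (sig : ℂ →+* D)
    (hrs : ∀ c, rho (sig c) = c) :
    ∃ (phi : K →+* LS) (p : K) (V : ValuationSubring K),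
      (∀ c, phi (algebraMap D K (sig c)) = HahnSeries.C c) ∧
      (phi p).order = 1 ∧ (∀ x : D, rho x = 0 → Ge (phi (algebraMap D K x)) 1) ∧
      (∀ x : K, x ∈ V ↔ Ge (phi x) 0) := by
  obtain ⟨p, hp⟩ := IsDiscreteValuationRing.exists_irreducible D
  have hmax := (IsDiscreteValuationRing.irreducible_iff_uniformizer p).1 hp
  have hsurj : Function.Surjective rho := fun c => ⟨sig c, hrs c⟩
  have hker : RingHom.ker rho = IsLocalRing.maximalIdeal D :=
    IsLocalRing.eq_maximalIdeal (RingHom.ker_isMaximal_of_surjective rho hsurj)
  have hrp : rho p = 0 := by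
    rw [← RingHom.mem_ker, hker, hmax]
    exact Ideal.mem_span_singleton_self p
  let d : ExpData D :=
    { rho := rho
      sig := sig
      p := p
      rho_sig := hrs
      p_ne := hp.ne_zero
      rho_p := hrp
      ker := by
        intro x hx
        rw [← RingHom.mem_ker, hker, hmax, Ideal.mem_span_singleton] at hx
        exact hx }
  have hinj : Function.Injective d.hom := by
    rw [injective_iff_map_eq_zero]
    intro x hx
    by_contra hne
    obtain ⟨n, u, rfl⟩ := IsDiscreteValuationRing.eq_unit_mul_pow_irreducible hne hp
    rw [map_mul, map_pow] at hx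
    have h1 : d.hom p = PowerSeries.X := d.ser_p
    rw [h1] at hx
    have hu : IsUnit (d.hom (u : D)) := u.isUnit.map d.hom
    rcases mul_eq_zero.1 hx with h | h
    · exact hu.ne_zero h
    · exact pow_ne_zero n PowerSeries.X_ne_zero h
  let g : D →+* LS := (HahnSeries.ofPowerSeries ℤ ℂ).comp d.hom
  have hg : Function.Injective g := HahnSeries.ofPowerSeries_injective.comp hinj
  have hcoe : ∀ (x : D) (i : ℤ), (g x).coeff i =
      if i < 0 then 0 else PowerSeries.coeff i.natAbs (d.hom x) := fun x i =>
    PowerSeries.coeff_coe (d.hom x) i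
  have hG0 : ∀ x : D, Ge (g x) 0 := fun x i hi => by rw [hcoe, if_pos hi]
  have hG1 : ∀ x : D, rho x = 0 → Ge (g x) 1 := by
    intro x hx i hi
    rw [hcoe]
    split_ifs with h
    · rfl
    · have hi0 : i = 0 := by omega
      rw [hi0, Int.natAbs_zero, PowerSeries.coeff_zero_eq_constantCoeff_apply, d.hom_const]
      exact hx
  have hgp : g p = single (1 : ℤ) (1 : ℂ) := by
    have h1 : d.hom p = PowerSeries.X := d.ser_p
    change HahnSeries.ofPowerSeries ℤ ℂ (d.hom p) = _
    rw [h1, HahnSeries.ofPowerSeries_X]
  refine ⟨IsFractionRing.lift hg, algebraMap D K p,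
    ValuationSubring.ofSubring (algebraMap D K).range
      (fun x => ValuationRing.isInteger_or_isInteger D x), ?_, ?_, ?_, ?_⟩
  · intro c
    rw [IsFractionRing.lift_algebraMap]
    have h1 : d.hom (sig c) = PowerSeries.C c := d.ser_sig c
    change HahnSeries.ofPowerSeries ℤ ℂ (d.hom (sig c)) = _
    rw [h1, HahnSeries.ofPowerSeries_C]
  · rw [IsFractionRing.lift_algebraMap, hgp, order_single one_ne_zero]
  · intro x hx
    rw [IsFractionRing.lift_algebraMap]
    exact hG1 x hx
  · intro x
    symm
    constructor
    · intro hx
      change x ∈ (algebraMap D K).range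
      by_cases hx0 : x = 0
      · rw [hx0]; exact zero_mem _
      rcases ValuationRing.isInteger_or_isInteger D x with h | h
      · exact h
      · obtain ⟨y, hy⟩ := h
        by_cases hyu : IsUnit y
        · obtain ⟨z, hz⟩ := hyu.exists_left_inv
          refine ⟨z, ?_⟩
          have h2 : algebraMap D K z * algebraMap D K y = 1 := by
            rw [← map_mul, hz, map_one]
          rw [hy] at h2
          field_simp at h2
          exact h2
        · exfalso
          have hym : rho y = 0 := by
            rw [← RingHom.mem_ker, hker]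
            exact (IsLocalRing.mem_maximalIdeal y).2 hyu
          have h1 := (hG1 y hym).mul hx
          have h3 : IsFractionRing.lift hg (algebraMap D K y) = g y :=
            IsFractionRing.lift_algebraMap hg y
          rw [← h3, ← map_mul, hy, inv_mul_cancel₀ hx0, map_one] at h1
          have h2 := h1 0 (by norm_num)
          rw [coeff_one, if_pos rfl] at h2
          exact one_ne_zero h2
    · rintro ⟨y, rfl⟩
      rw [IsFractionRing.lift_algebraMap]
      exact hG0 y

end Pool.Agent.H90.Ram
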