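import Mathlib
import Pool.Agent.H90.Ram.Embed

/-!
# Existence of a place over a given parameter of a function field over `ℂ`
-/

set_option autoImplicit false

namespace Pool.Agent.H90.Ram

open Polynomial

/-- In a function field `K` in one variable over `ℂ` there is a place at which the variable
vanishes, given by Laurent expansions. -/
theorem exists_place (K : Type*) [Field K] [Algebra ℂ[X] K] [FaithfulSMul ℂ[X] K]
    [Algebra (FractionRing ℂ[X]) K] [IsScalarTower ℂ[X] (FractionRing ℂ[X]) K]
    [FiniteDimensional (FractionRing ℂ[X]) K] :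
    ∃ (phi : K →+* LS) (p : K) (V : ValuationSubring K),
      (∀ c, phi (algebraMap ℂ[X] K (Polynomial.C c)) = HahnSeries.C c) ∧
      (phi p).order = 1 ∧ Ge (phi (algebraMap ℂ[X] K X)) 1 ∧
      ∀ x, x ∈ V ↔ Ge (phi x) 0 := by
  classical
  have : CharZero (FractionRing ℂ[X]) :=
    charZero_of_injective_algebraMap (IsFractionRing.injective ℂ[X] (FractionRing ℂ[X]))
  have hDed : IsDedekindDomain (integralClosure ℂ[X] K) :=
    integralClosure.isDedekindDomain ℂ[X] (FractionRing ℂ[X]) K
  have hFr : IsFractionRing (integralClosure ℂ[X] K) K :=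
    integralClosure.isFractionRing_of_finite_extension (FractionRing ℂ[X]) K
  have hX : (Ideal.span {(X : ℂ[X])}).IsPrime := by
    rw [Ideal.span_singleton_prime X_ne_zero]
    exact Polynomial.prime_X
  obtain ⟨Q, -, hQ, hQX⟩ := Ideal.exists_ideal_over_prime_of_isIntegral
    (R := ℂ[X]) (S := integralClosure ℂ[X] K) (Ideal.span {(X : ℂ[X])}) ⊥ (by
      intro x hx
      rw [Ideal.mem_comap, Ideal.mem_bot] at hx
      have : x = 0 := by
        have h2 := congrArg (algebraMap (integralClosure ℂ[X] K) K) hx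
        rw [map_zero, ← IsScalarTower.algebraMap_apply] at h2
        exact (map_eq_zero_iff _ (FaithfulSMul.algebraMap_injective ℂ[X] K)).1 h2
      rw [this]; exact zero_mem _)
  have hXQ : algebraMap ℂ[X] (integralClosure ℂ[X] K) X ∈ Q := by
    have : (X : ℂ[X]) ∈ Q.comap (algebraMap ℂ[X] (integralClosure ℂ[X] K)) := by
      rw [hQX]; exact Ideal.mem_span_singleton_self X
    exact this
  have hQ0 : Q ≠ ⊥ := by
    intro h
    rw [h, Ideal.mem_bot] at hXQ
    have h2 := congrArg (algebraMap (integralClosure ℂ[X] K) K) hXQ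
    rw [map_zero, ← IsScalarTower.algebraMap_apply] at h2
    exact X_ne_zero ((map_eq_zero_iff _ (FaithfulSMul.algebraMap_injective ℂ[X] K)).1 h2)
  -- the residue field
  let iota : ℂ →+* integralClosure ℂ[X] K := (algebraMap ℂ[X] (integralClosure ℂ[X] K)).comp
    Polynomial.C
  let algQ : Algebra ℂ (integralClosure ℂ[X] K ⧸ Q) := ((Ideal.Quotient.mk Q).comp iota).toAlgebra
  have hcomp : (Ideal.Quotient.mk Q).comp (algebraMap ℂ[X] (integralClosure ℂ[X] K)) =
      ((Ideal.Quotient.mk Q).comp iota).comp (Polynomial.evalRingHom 0) := by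
    refine Polynomial.ringHom_ext (fun a => ?_) ?_
    · simp [iota]
    · simp only [RingHom.comp_apply, Polynomial.coe_evalRingHom, Polynomial.eval_X, map_zero]
      rw [Ideal.Quotient.eq_zero_iff_mem]
      exact hXQ
  have hint : Algebra.IsIntegral ℂ (integralClosure ℂ[X] K ⧸ Q) := by
    refine ⟨fun x => ?_⟩
    obtain ⟨c, rfl⟩ := Ideal.Quotient.mk_surjective x
    have hc : IsIntegral ℂ[X] c := Algebra.IsIntegral.isIntegral c
    obtain ⟨f, hf, hf0⟩ := hc
    refine ⟨f.map (Polynomial.evalRingHom 0), hf.map _, ?_⟩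
    rw [Polynomial.eval₂_map]
    have h2 : (algebraMap ℂ (integralClosure ℂ[X] K ⧸ Q)).comp (Polynomial.evalRingHom 0) =
        (Ideal.Quotient.mk Q).comp (algebraMap ℂ[X] (integralClosure ℂ[X] K)) := hcomp.symm
    rw [h2, ← Polynomial.hom_eval₂, hf0, map_zero]
  have hbij : Function.Bijective (algebraMap ℂ (integralClosure ℂ[X] K ⧸ Q)) :=
    IsAlgClosed.algebraMap_bijective_of_isIntegral
  let eq : ℂ ≃+* (integralClosure ℂ[X] K ⧸ Q) := RingEquiv.ofBijective _ hbij
  let rho0 : integralClosure ℂ[X] K →+* ℂ := (eq.symm : _ →+* ℂ).comp (Ideal.Quotient.mk Q)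
  have hrho0 : ∀ x, rho0 x = 0 ↔ x ∈ Q := by
    intro x
    change eq.symm (Ideal.Quotient.mk Q x) = 0 ↔ _
    rw [map_eq_zero_iff _ eq.symm.injective, Ideal.Quotient.eq_zero_iff_mem]
  have hrho1 : ∀ c, rho0 (iota c) = c := by
    intro c
    change eq.symm (Ideal.Quotient.mk Q (iota c)) = c
    rw [RingEquiv.symm_apply_eq]
    rfl
  -- the local ring
  have hDVR : IsDiscreteValuationRing (Localization.AtPrime Q) :=
    IsLocalization.AtPrime.isDiscreteValuationRing_of_dedekind_domain
      (integralClosure ℂ[X] K) hQ0 (Localization.AtPrime Q)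
  let rho : Localization.AtPrime Q →+* ℂ := IsLocalization.lift (M := Q.primeCompl) (g := rho0)
    (fun y => by
      rw [isUnit_iff_ne_zero]
      intro h
      exact y.2 ((hrho0 _).1 h))
  have hunit : ∀ y : Q.primeCompl, IsUnit (algebraMap (integralClosure ℂ[X] K) K y) := by
    intro y
    rw [isUnit_iff_ne_zero]
    intro h
    have h0 : (y : integralClosure ℂ[X] K) = 0 :=
      (map_eq_zero_iff _ (IsFractionRing.injective (integralClosure ℂ[X] K) K)).1 h
    exact y.2 (h0 ▸ Q.zero_mem)
  let algD : Algebra (Localization.AtPrime Q) K :=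
    (IsLocalization.lift (M := Q.primeCompl) (g := algebraMap (integralClosure ℂ[X] K) K)
      hunit).toAlgebra
  have htow : IsScalarTower (integralClosure ℂ[X] K) (Localization.AtPrime Q) K :=
    IsScalarTower.of_algebraMap_eq fun x => (IsLocalization.lift_eq hunit x).symm
  have hFrD : IsFractionRing (Localization.AtPrime Q) K :=
    IsFractionRing.isFractionRing_of_isDomain_of_isLocalization Q.primeCompl
      (Localization.AtPrime Q) K
  have hDdom : IsDomain (Localization.AtPrime Q) := inferInstance
  obtain ⟨phi, p, V, h1, h2, h3, h4⟩ := exists_laurent (Localization.AtPrime Q) K rho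
    ((algebraMap (integralClosure ℂ[X] K) (Localization.AtPrime Q)).comp iota) (fun c => by
      change rho (algebraMap _ _ (iota c)) = c
      rw [IsLocalization.lift_eq, hrho1])
  refine ⟨phi, p, V, ?_, h2, ?_, h4⟩
  · intro c
    rw [← h1 c]
    congr 1
    change _ = algebraMap (Localization.AtPrime Q) K
      (algebraMap (integralClosure ℂ[X] K) (Localization.AtPrime Q) (iota c))
    rw [← IsScalarTower.algebraMap_apply (integralClosure ℂ[X] K) (Localization.AtPrime Q) K]
    rfl
  · have h5 := h3 (algebraMap (integralClosure ℂ[X] K) (Localization.AtPrime Q)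
      (algebraMap ℂ[X] (integralClosure ℂ[X] K) X)) (by
        rw [IsLocalization.lift_eq]
        exact (hrho0 _).2 hXQ)
    rw [← IsScalarTower.algebraMap_apply (integralClosure ℂ[X] K) (Localization.AtPrime Q) K]
      at h5
    exact h5

end Pool.Agent.H90.Ram
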