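import Mathlib
import Pool.Agent.H90.Ram.Core
import Pool.Agent.H90.Ram.Place
import Pool.Agent.H90.Ram.Defs

/-!
# Once-punctured curves and their functions
-/

set_option autoImplicit false

namespace Pool.Agent.H90.Ram

open Polynomial

theorem mem_range_of_isAlgebraic {K : Type*} [Field K] [Algebra ℂ K] (x : K)
    (hx : IsAlgebraic ℂ x) : ∃ c, algebraMap ℂ K c = x :=
  minpoly.mem_range_of_degree_eq_one ℂ x
    (IsAlgClosed.degree_eq_one_of_irreducible ℂ (minpoly.irreducible hx.isIntegral))

theorem isAlgebraic_of_trdeg {K : Type} [Field K] [Algebra ℂ K] (h : Algebra.trdeg ℂ K = 1)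
    [Algebra ℂ[X] K] [FaithfulSMul ℂ[X] K] [IsScalarTower ℂ ℂ[X] K] :
    Algebra.IsAlgebraic ℂ[X] K := by
  rw [← trdeg_eq_zero_iff]
  have h1 := trdeg_add_eq ℂ ℂ[X] (A := K)
  rw [h, Polynomial.trdeg_of_isDomain] at h1
  exact Cardinal.eq_of_add_eq_add_left (a := 1) (by rw [h1, add_zero]) Cardinal.one_lt_aleph0

theorem trdeg_fractionRing {B : Type} [CommRing B] [IsDomain B] [Algebra ℂ B]
    [FaithfulSMul ℂ B] : Algebra.trdeg ℂ (FractionRing B) = Algebra.trdeg ℂ B := by
  have h1 := trdeg_add_eq ℂ B (A := FractionRing B)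
  have h2 : Algebra.trdeg B (FractionRing B) = 0 := by
    rw [trdeg_eq_zero_iff]
    exact (IsFractionRing.comap_isAlgebraic_iff (A := B) (K := FractionRing B)).2
      inferInstance
  rw [h2, add_zero] at h1
  exact h1.symm

theorem degSet_add {R : Set LS} (hR : IsAlg R) {j k : ℕ} (hj : j ∈ degSet R)
    (hk : k ∈ degSet R) : j + k ∈ degSet R := by
  obtain ⟨r, hr, hr0, hrl⟩ := hj
  obtain ⟨s, hs, hs0, hsl⟩ := hk
  have h1 : Ge r (-(j : ℤ)) := hrl
  have h2 : Ge s (-(k : ℤ)) := hsl
  have e : (-((j + k : ℕ) : ℤ)) = -(j : ℤ) + -(k : ℤ) := by push_cast; ring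
  refine ⟨r * s, hR.mul_mem _ _ hr hs, ?_, ?_⟩
  · rw [e, h1.coeff_mul h2]
    exact mul_ne_zero hr0 hs0
  · rw [e]
    exact h1.mul h2

theorem degSet_mul {R : Set LS} (hR : IsAlg R) {j : ℕ} (hj : j ∈ degSet R) (q : ℕ) :
    q * j ∈ degSet R := by
  induction q with
  | zero =>
    rw [zero_mul]
    refine ⟨1, ?_, ?_, ?_⟩
    · have := hR.C_mem 1
      rwa [map_one] at this
    · simp
    · intro i hi
      exact ge_one i (by simpa using hi)
  | succ q ih =>
    rw [add_mul, one_mul]
    exact degSet_add hR ih hj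

theorem degSet_cofinite {R : Set LS} (hR : IsAlg R) {j : ℕ} (hj : j ∈ degSet R)
    (hj1 : j + 1 ∈ degSet R) : ∀ m, j * j ≤ m → m ∈ degSet R := by
  intro m hm
  by_cases hj0 : j = 0
  · subst hj0
    have := degSet_mul hR hj1 m
    simpa using this
  · have hpos : 0 < j := Nat.pos_of_ne_zero hj0
    have h1 : m % j < j := Nat.mod_lt m hpos
    have h2 : j ≤ m / j := (Nat.le_div_iff_mul_le hpos).2 hm
    have h3 : m = (m / j - m % j) * j + (m % j) * (j + 1) := by
      have h4 : m = j * (m / j) + m % j := (Nat.div_add_mod m j).symm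
      obtain ⟨w, hw⟩ : ∃ w, m / j = m % j + w := ⟨m / j - m % j, by omega⟩
      rw [hw, Nat.add_sub_cancel_left]
      conv_lhs => rw [h4, hw]
      ring
    rw [h3]
    exact degSet_add hR (degSet_mul hR hj _) (degSet_mul hR hj1 _)

/-- The Laurent expansions at the puncture of the functions on a once-punctured curve. -/
theorem OncePunctured.exists_expansion {B : Type} [CommRing B] [IsDomain B] [Algebra ℂ B]
    [Algebra.FiniteType ℂ B] (hB : OncePunctured B) :
    ∃ phi : B →+* LS, (∀ c, phi (algebraMap ℂ B c) = HahnSeries.C c) ∧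
      (∀ b : B, Ge (phi b) 0 → ∃ c, b = algebraMap ℂ B c) ∧
      ∃ N0 : ℕ, ∀ j, N0 ≤ j → j ∈ degSet (Set.range phi) := by
  obtain ⟨htr, O, ⟨hOC, b0, hb0⟩, huniq⟩ := hB
  have hfaith : FaithfulSMul ℂ B := inferInstance
  have htrK : Algebra.trdeg ℂ (FractionRing B) = 1 := by rw [trdeg_fractionRing, htr]
  -- the element `s` with a pole and its inverse `t`
  set s : FractionRing B := algebraMap B (FractionRing B) b0 with hs
  have hs0 : s ≠ 0 := by
    intro h
    apply hb0
    rw [h]; exact zero_mem _
  have hst : Transcendental ℂ s⁻¹ := by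
    intro halg
    obtain ⟨c, hc⟩ := mem_range_of_isAlgebraic _ halg
    apply hb0
    have : s = algebraMap ℂ (FractionRing B) c⁻¹ := by
      rw [map_inv₀, hc, inv_inv]
    rw [this]
    exact hOC _
  let algX : Algebra ℂ[X] (FractionRing B) := (Polynomial.aeval s⁻¹).toRingHom.toAlgebra
  have hX : algebraMap ℂ[X] (FractionRing B) X = s⁻¹ := by
    change Polynomial.aeval s⁻¹ X = _
    rw [Polynomial.aeval_X]
  have hCX : ∀ c, algebraMap ℂ[X] (FractionRing B) (Polynomial.C c) =
      algebraMap ℂ (FractionRing B) c := by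
    intro c
    change Polynomial.aeval s⁻¹ (Polynomial.C c) = _
    rw [Polynomial.aeval_C]
  have hinj : Function.Injective (algebraMap ℂ[X] (FractionRing B)) :=
    transcendental_iff_injective.1 hst
  have hfX : FaithfulSMul ℂ[X] (FractionRing B) := (faithfulSMul_iff_algebraMap_injective _ _).2 hinj
  have htow1 : IsScalarTower ℂ ℂ[X] (FractionRing B) :=
    IsScalarTower.of_algebraMap_eq fun c => (hCX c).symm
  let algF : Algebra (FractionRing ℂ[X]) (FractionRing B) :=
    FractionRing.liftAlgebra ℂ[X] (FractionRing B)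
  have htow2 : IsScalarTower ℂ[X] (FractionRing ℂ[X]) (FractionRing B) :=
    FractionRing.isScalarTower_liftAlgebra ℂ[X] (FractionRing B)
  have halg1 : Algebra.IsAlgebraic ℂ[X] (FractionRing B) := isAlgebraic_of_trdeg htrK
  have halg2 : Algebra.IsAlgebraic (FractionRing ℂ[X]) (FractionRing B) :=
    (IsFractionRing.comap_isAlgebraic_iff (A := ℂ[X])).1 halg1
  have hess : Algebra.EssFiniteType ℂ (FractionRing B) := by
    have : Algebra.EssFiniteType B (FractionRing B) :=
      Algebra.EssFiniteType.of_isLocalization _ (nonZeroDivisors B)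
    exact Algebra.EssFiniteType.comp ℂ B (FractionRing B)
  have htow3 : IsScalarTower ℂ (FractionRing ℂ[X]) (FractionRing B) :=
    IsScalarTower.of_algebraMap_eq fun c => by
      rw [IsScalarTower.algebraMap_apply ℂ ℂ[X] (FractionRing B),
        IsScalarTower.algebraMap_apply ℂ ℂ[X] (FractionRing ℂ[X]),
        IsScalarTower.algebraMap_apply ℂ[X] (FractionRing ℂ[X]) (FractionRing B)]
  have hess2 : Algebra.EssFiniteType (FractionRing ℂ[X]) (FractionRing B) :=
    Algebra.EssFiniteType.of_comp ℂ (FractionRing ℂ[X]) (FractionRing B)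
  have hfin : FiniteDimensional (FractionRing ℂ[X]) (FractionRing B) :=
    Algebra.finite_of_essFiniteType_of_isAlgebraic
  obtain ⟨phi, p, V, h1, h2, h3, h4⟩ := exists_place (FractionRing B)
  have hphiC : ∀ c, phi (algebraMap ℂ (FractionRing B) c) = HahnSeries.C c := fun c => by
    rw [← hCX, h1]
  have hVC : ∀ c : ℂ, algebraMap ℂ (FractionRing B) c ∈ V := fun c => by
    rw [h4, hphiC]; exact ge_C c
  have hsV : s ∉ V := by
    intro h
    rw [h4] at h
    rw [hX] at h3
    have h5 := h.mul h3
    rw [← map_mul, mul_inv_cancel₀ hs0, map_one] at h5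
    have h6 := h5 0 (by norm_num)
    rw [HahnSeries.coeff_one, if_pos rfl] at h6
    exact one_ne_zero h6
  have hVO : V = O := huniq V ⟨hVC, b0, hsV⟩
  -- elements of `B` which are regular at the puncture are constants
  have hconst : ∀ b : B, Ge (phi (algebraMap B (FractionRing B) b)) 0 →
      ∃ c, b = algebraMap ℂ B c := by
    intro b hb
    rw [← h4] at hb
    by_contra hne
    push Not at hne
    have hnot : algebraMap B (FractionRing B) b ∉ (algebraMap ℂ (FractionRing B)).range := by
      rintro ⟨c, hc⟩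
      refine hne c ?_
      apply IsFractionRing.injective B (FractionRing B)
      rw [← hc, ← IsScalarTower.algebraMap_apply]
    have hic : IsIntegrallyClosedIn (algebraMap ℂ (FractionRing B)).range (FractionRing B) := by
      rw [Subring.isIntegrallyClosedIn_iff]
      intro x hx
      obtain ⟨c, hc⟩ := mem_range_of_isAlgebraic x (by
        have hx2 : IsIntegral ℂ x := by
          obtain ⟨f, hf, hf0⟩ := hx
          have hsurj := (algebraMap ℂ (FractionRing B)).rangeRestrict_surjective
          obtain ⟨g, hg, -, hgm⟩ := Polynomial.lifts_and_natDegree_eq_and_monic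
            (f := (algebraMap ℂ (FractionRing B)).rangeRestrict)
            (p := f) (by
              rw [Polynomial.lifts_iff_coeff_lifts]
              intro n
              exact hsurj _) hf
          refine ⟨g, hgm, ?_⟩
          rw [← hg, Polynomial.eval₂_map] at hf0
          exact hf0
        exact hx2.isAlgebraic)
      exact ⟨c, hc⟩
    obtain ⟨W, hW1, hW2⟩ := Subring.exists_le_valuationSubring_of_isIntegrallyClosedIn hnot
    have hWO : W = O := huniq W ⟨fun c => hW1 ⟨c, rfl⟩, b, hW2⟩
    rw [hWO, ← hVO] at hW2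
    exact hW2 hb
  have hR : IsAlg (Set.range (phi.comp (algebraMap B (FractionRing B)))) := by
    refine ⟨fun c => ⟨algebraMap ℂ B c, ?_⟩, ?_, ?_⟩
    · rw [RingHom.comp_apply, ← IsScalarTower.algebraMap_apply, hphiC]
    · rintro _ _ ⟨x, rfl⟩ ⟨y, rfl⟩
      exact ⟨x + y, map_add _ _ _⟩
    · rintro _ _ ⟨x, rfl⟩ ⟨y, rfl⟩
      exact ⟨x * y, map_mul _ _ _⟩
  refine ⟨phi.comp (algebraMap B (FractionRing B)), ?_, hconst, ?_⟩
  · intro c
    rw [RingHom.comp_apply, ← IsScalarTower.algebraMap_apply, hphiC]
  · -- the degrees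
    have hord : ∀ b : B, b ≠ 0 → (phi (algebraMap B (FractionRing B) b)).order ≤ 0 ∧
        ((-(phi (algebraMap B (FractionRing B) b)).order).toNat ∈
          degSet (Set.range (phi.comp (algebraMap B (FractionRing B))))) := by
      intro b hb
      have hne : phi (algebraMap B (FractionRing B) b) ≠ 0 := by
        rw [_root_.map_ne_zero]
        exact fun h => hb (IsFractionRing.injective B (FractionRing B) (by rw [h, map_zero]))
      have hle : (phi (algebraMap B (FractionRing B) b)).order ≤ 0 := by
        by_contra hlt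
        push Not at hlt
        have hge : Ge (phi (algebraMap B (FractionRing B) b)) 0 :=
          (ge_order _).mono hlt.le
        obtain ⟨c, hc⟩ := hconst b hge
        have h5 : phi (algebraMap B (FractionRing B) b) = HahnSeries.C c := by
          rw [hc, ← IsScalarTower.algebraMap_apply, hphiC]
        rw [h5, HahnSeries.order_C] at hlt
        exact lt_irrefl _ hlt
      have hcast : (((-(phi (algebraMap B (FractionRing B) b)).order).toNat : ℕ) : ℤ) =
          -(phi (algebraMap B (FractionRing B) b)).order := Int.toNat_of_nonneg (by omega)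
      refine ⟨hle, phi (algebraMap B (FractionRing B) b), ⟨b, rfl⟩, ?_, ?_⟩
      · rw [hcast, neg_neg]
        exact fun h => hne (HahnSeries.coeff_order_eq_zero.1 h)
      · rw [hcast, neg_neg]
        exact ge_order _
    obtain ⟨x, y, hy, hxy⟩ := IsFractionRing.div_surjective (A := B) p
    have hy0 : y ≠ 0 := nonZeroDivisors.ne_zero hy
    have hp0 : p ≠ 0 := by
      rintro rfl
      rw [map_zero, HahnSeries.order_zero] at h2
      exact zero_ne_one h2
    have hx0 : x ≠ 0 := by
      rintro rfl
      rw [map_zero, zero_div] at hxy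
      exact hp0 hxy.symm
    have hyK : algebraMap B (FractionRing B) y ≠ 0 := fun h =>
      hy0 (IsFractionRing.injective B (FractionRing B) (by rw [h, map_zero]))
    have h5 : phi (algebraMap B (FractionRing B) x) = phi p * phi (algebraMap B (FractionRing B) y) := by
      rw [← map_mul, ← hxy, div_mul_cancel₀ _ hyK]
    have h6 : (phi (algebraMap B (FractionRing B) x)).order =
        1 + (phi (algebraMap B (FractionRing B) y)).order := by
      rw [h5, HahnSeries.order_mul ((_root_.map_ne_zero phi).2 hp0) ((_root_.map_ne_zero phi).2 hyK), h2]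
    obtain ⟨hx1, hx2⟩ := hord x hx0
    obtain ⟨hy1, hy2⟩ := hord y hy0
    have h7 : (-(phi (algebraMap B (FractionRing B) y)).order).toNat =
        (-(phi (algebraMap B (FractionRing B) x)).order).toNat + 1 := by omega
    rw [h7] at hy2
    exact ⟨_, degSet_cofinite hR hx2 hy2⟩

end Pool.Agent.H90.Ram
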