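import Mathlib
import Pool.Agent.H90.Ram.Defs

/-!
# The explicit affine surface is Ramanujam's surface, and it is smooth
-/

set_option autoImplicit false

namespace Pool.Agent.H90.Ram

theorem mem_ramanujamSet (x : Fin 4 → ℂ) : x ∈ RamanujamSet ↔
    x 0 * x 2 - x 3 * x 1 ^ 2 = 1 ∧
      16 * x 1 * x 0 ^ 2 + x 3 * x 2 - 6 * x 3 * x 1 - 3 * x 0 = 1 := by
  have h16 : MvPolynomial.eval x (16 : MvPolynomial (Fin 4) ℂ) = 16 := map_ofNat _ 16
  have h6 : MvPolynomial.eval x (6 : MvPolynomial (Fin 4) ℂ) = 6 := map_ofNat _ 6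
  have h3 : MvPolynomial.eval x (3 : MvPolynomial (Fin 4) ℂ) = 3 := map_ofNat _ 3
  simp only [RamanujamSet, Set.mem_ofPred_eq, eqOne, eqTwo, map_sub, map_add, map_mul, map_pow,
    MvPolynomial.eval_X, map_one, h16, h6, h3]
  constructor
  · rintro ⟨h1, h2⟩
    exact ⟨by linear_combination h1, by linear_combination h2⟩
  · rintro ⟨h1, h2⟩
    exact ⟨by linear_combination h1, by linear_combination h2⟩

theorem isSmoothSurface : IsSmoothSurface := by
  intro x hx
  obtain ⟨h1, h2⟩ := (mem_ramanujamSet x).1 hx
  have h16 : ∀ i : Fin 4, MvPolynomial.pderiv i (16 : MvPolynomial (Fin 4) ℂ) = 0 := fun i => by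
    have : (16 : MvPolynomial (Fin 4) ℂ) = MvPolynomial.C 16 := (map_ofNat MvPolynomial.C 16).symm
    rw [this, MvPolynomial.pderiv_C]
  have h6 : ∀ i : Fin 4, MvPolynomial.pderiv i (6 : MvPolynomial (Fin 4) ℂ) = 0 := fun i => by
    have : (6 : MvPolynomial (Fin 4) ℂ) = MvPolynomial.C 6 := (map_ofNat MvPolynomial.C 6).symm
    rw [this, MvPolynomial.pderiv_C]
  have h3 : ∀ i : Fin 4, MvPolynomial.pderiv i (3 : MvPolynomial (Fin 4) ℂ) = 0 := fun i => by
    have : (3 : MvPolynomial (Fin 4) ℂ) = MvPolynomial.C 3 := (map_ofNat MvPolynomial.C 3).symm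
    rw [this, MvPolynomial.pderiv_C]
  have e16 : MvPolynomial.eval x (16 : MvPolynomial (Fin 4) ℂ) = 16 := map_ofNat _ 16
  have e6 : MvPolynomial.eval x (6 : MvPolynomial (Fin 4) ℂ) = 6 := map_ofNat _ 6
  have e3 : MvPolynomial.eval x (3 : MvPolynomial (Fin 4) ℂ) = 3 := map_ofNat _ 3
  rw [LinearIndependent.pair_iff]
  intro a b hab
  have c0 := congrFun hab 0
  have c1 := congrFun hab 1
  have c2 := congrFun hab 2
  have c3 := congrFun hab 3
  simp only [eqOne, eqTwo, Pi.add_apply, Pi.smul_apply, smul_eq_mul, map_sub, map_add,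
    MvPolynomial.pderiv_mul, MvPolynomial.pderiv_pow, MvPolynomial.pderiv_X, Pi.single_apply,
    MvPolynomial.pderiv_one, map_mul, map_pow, MvPolynomial.eval_X, h16, h6, h3, e16, e6, e3,
    Pi.zero_apply, Fin.reduceEq, if_true, if_false, map_zero, map_one] at c0 c1 c2 c3
  norm_num at c0 c1 c2 c3
  have hb : b = 0 := by
    linear_combination x 0 * c0 + x 1 * c1 + x 2 * c2 +
      2 * (-(x 1 * c1) - x 2 * c2 + x 3 * c3) - b * h2
  subst hb
  refine ⟨?_, rfl⟩
  linear_combination x 0 * c0 + x 3 * c3 - a * h1

theorem isRamanujamSurface : IsRamanujamSurface where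
  cusp := by
    intro x y z
    simp only [cubic, conic, Matrix.cons_val_zero, Matrix.cons_val_one, Matrix.cons_val]
    ring
  contact := by
    intro s
    simp only [conic, Matrix.cons_val_zero, Matrix.cons_val_one, Matrix.cons_val]
    ring
  transform := by
    intro L w r h0 h2
    simp only [cubic, conic, conicT, cubicT]
    rw [h0, h2]
    constructor <;> ring
  mapsTo := by
    intro x hx
    obtain ⟨h1, h2⟩ := (mem_ramanujamSet x).1 hx
    simp only [OnBlowup, conicT, cubicT, Matrix.cons_val_zero, Matrix.cons_val_one,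
      Matrix.cons_val]
    refine ⟨⟨?_, ?_, by ring⟩, ?_, ?_⟩
    · intro h
      have i0 := congrFun h 0
      have i1 := congrFun h 1
      have i2 := congrFun h 2
      simp only [Matrix.cons_val_zero, Matrix.cons_val_one, Matrix.cons_val,
        Pi.zero_apply] at i0 i1 i2
      rw [i1] at h2
      have : (0 : ℂ) = 1 := by linear_combination h2 - i2 + 6 * i0
      exact zero_ne_one this
    · intro h
      have i0 := congrFun h 0
      have i1 := congrFun h 1
      simp only [Matrix.cons_val_zero, Matrix.cons_val_one, Pi.zero_apply] at i0 i1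
      rw [i0, i1] at h1
      have : (0 : ℂ) = 1 := by linear_combination h1
      exact zero_ne_one this
    · have : x 0 * x 2 - x 3 * x 1 * x 1 = 1 := by linear_combination h1
      rw [this]
      exact one_ne_zero
    · have h3 : x 0 * x 2 - x 3 * x 1 * x 1 = 1 := by linear_combination h1
      have : 16 * x 1 * x 0 ^ 2 + (x 0 * x 2 - x 3 * x 1 * x 1) *
          (x 3 * x 2 - 6 * (x 3 * x 1) - 3 * x 0) = 1 := by
        rw [h3]; linear_combination h2
      rw [this]
      exact one_ne_zero
  bijective := by
    rintro L w ⟨hL, hw, hLw⟩ hc hd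
    obtain ⟨r, hr0, hr2⟩ : ∃ r, L 0 = r * w 0 ∧ L 2 = r * w 1 := by
      by_cases h0 : w 0 = 0
      · have h1 : w 1 ≠ 0 := by
          intro h1
          apply hw
          ext i
          fin_cases i
          · exact h0
          · exact h1
        refine ⟨L 2 / w 1, ?_, ?_⟩
        · rw [h0, mul_zero] at hLw ⊢
          exact (mul_eq_zero.1 hLw).resolve_right h1
        · field_simp
      · refine ⟨L 0 / w 0, ?_, ?_⟩
        · field_simp
        · field_simp
          linear_combination -hLw
    obtain ⟨p, hp⟩ : ∃ p, p = conicT L w := ⟨_, rfl⟩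
    obtain ⟨q, hq⟩ : ∃ q, q = cubicT L w := ⟨_, rfl⟩
    rw [← hp] at hc
    rw [← hq] at hd
    have hp' : p = L 1 * w 1 - r * w 0 * w 0 := by rw [hp, conicT, hr0]
    have hq' : q = 16 * w 0 * L 1 ^ 2 + p * (r * w 1 - 6 * (r * w 0) - 3 * L 1) := by
      rw [hq, cubicT, ← hp, hr0, hr2]
    refine ⟨![p / q * L 1, q / p ^ 2 * w 0, q / p ^ 2 * w 1, (p / q) / (q / p ^ 2) * r],
      ⟨?_, p / q, q / p ^ 2, div_ne_zero hc hd, div_ne_zero hd (pow_ne_zero 2 hc), ?_, ?_⟩, ?_⟩
    · rw [mem_ramanujamSet]
      simp only [Matrix.cons_val_zero, Matrix.cons_val_one, Matrix.cons_val]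
      constructor
      · field_simp
        linear_combination -hp'
      · field_simp
        linear_combination -hq'
    · ext i
      fin_cases i
      · simp only [Matrix.cons_val_zero, Matrix.cons_val_one, Matrix.cons_val, Fin.zero_eta,
          Pi.smul_apply, smul_eq_mul]
        rw [hr0]
        field_simp
      · simp
      · simp only [Matrix.cons_val_zero, Matrix.cons_val_one, Matrix.cons_val, Fin.reduceFinMk,
          Pi.smul_apply, smul_eq_mul]
        rw [hr2]
        field_simp
    · ext i
      fin_cases i <;> simp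
    · rintro y ⟨hy, a, b, ha, hb, h1, h2⟩
      obtain ⟨e1, e2⟩ := (mem_ramanujamSet y).1 hy
      have i0 := congrFun h1 0
      have i1 := congrFun h1 1
      have i2 := congrFun h1 2
      have j0 := congrFun h2 0
      have j1 := congrFun h2 1
      simp only [Matrix.cons_val_zero, Matrix.cons_val_one, Matrix.cons_val, Pi.smul_apply,
        smul_eq_mul] at i0 i1 i2 j0 j1
      have k1 : a * b * p = 1 := by
        have : a * b * p = y 0 * y 2 - (y 3 * y 1) * y 1 := by
          rw [i0, i1, j0, j1, hp', hr0]; ring
        rw [this]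
        linear_combination e1
      have k2 : a ^ 2 * b * q = 1 := by
        have : a ^ 2 * b * q = 16 * y 1 * y 0 ^ 2 + (a * b * p) *
            (y 3 * y 2 - 6 * (y 3 * y 1) - 3 * y 0) := by
          rw [i0, i1, i2, j0, hq', hr0, hr2]; ring
        rw [this, k1]
        linear_combination e2
      have ka : a = p / q := by
        field_simp
        have hab : a * b ≠ 0 := mul_ne_zero ha hb
        apply mul_left_cancel₀ hab
        linear_combination k2 - k1
      have kb : b = q / p ^ 2 := by
        rw [ka] at k1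
        field_simp at k1 ⊢
        linear_combination k1
      have k3 : y 3 = a / b * r := by
        by_cases h0 : w 0 = 0
        · have h1' : w 1 ≠ 0 := by
            intro h1
            apply hw
            ext i
            fin_cases i
            · exact h0
            · exact h1
          have : y 3 * (b * w 1) = a * (r * w 1) := by rw [← j1, i2, hr2]
          field_simp
          apply mul_right_cancel₀ h1'
          linear_combination this
        · have : y 3 * (b * w 0) = a * (r * w 0) := by rw [← j0, i0, hr0]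
          field_simp
          apply mul_right_cancel₀ h0
          linear_combination this
      ext i
      fin_cases i
      · simp only [Matrix.cons_val_zero, Fin.zero_eta]
        rw [i1, ka]
      · simp only [Matrix.cons_val_one, Matrix.cons_val_zero, Fin.mk_one]
        rw [j0, kb]
      · simp only [Matrix.cons_val, Fin.reduceFinMk]
        rw [j1, kb]
      · simp only [Matrix.cons_val, Fin.reduceFinMk]
        rw [k3, ka, kb]

end Pool.Agent.H90.Ram
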