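import Mathlib
import Pool.Agent.H90.Ram.Curve
import Pool.Agent.H90.Ram.Model

/-!
# Ramanujam's surface contains no once-punctured curve
-/

set_option autoImplicit false

namespace Pool.Agent.H90.Ram

/-- Every solution of the equations of Ramanujam's surface in the coordinate ring of a
once-punctured curve is constant. -/
theorem solution_const {B : Type} [CommRing B] [IsDomain B] [Algebra ℂ B]
    [Algebra.FiniteType ℂ B] (hB : OncePunctured B) (t u v e : B)
    (e1 : t * v - e * u ^ 2 = 1)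
    (e2 : 16 * u * t ^ 2 + e * v - 6 * e * u - 3 * t = 1) :
    ∃ c : Fin 4 → ℂ, t = algebraMap ℂ B (c 0) ∧ u = algebraMap ℂ B (c 1) ∧
      v = algebraMap ℂ B (c 2) ∧ e = algebraMap ℂ B (c 3) := by
  obtain ⟨phi, hC, hconst, N0, hN0⟩ := hB.exists_expansion
  have hR : IsAlg (Set.range phi) := by
    refine ⟨fun c => ⟨algebraMap ℂ B c, hC c⟩, ?_, ?_⟩
    · rintro _ _ ⟨x, rfl⟩ ⟨y, rfl⟩
      exact ⟨x + y, map_add _ _ _⟩
    · rintro _ _ ⟨x, rfl⟩ ⟨y, rfl⟩
      exact ⟨x * y, map_mul _ _ _⟩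
  have h1 : ∀ r ∈ Set.range phi, (∀ i : ℤ, i ≤ 0 → r.coeff i = 0) → r = 0 := by
    rintro _ ⟨b, rfl⟩ hb
    obtain ⟨c, rfl⟩ := hconst b fun i hi => hb i hi.le
    rw [hC] at hb ⊢
    have h0 := hb 0 le_rfl
    rw [HahnSeries.C_apply, HahnSeries.coeff_single_same] at h0
    rw [h0, map_zero]
  have f1 : phi t * phi v - phi e * phi u ^ 2 = 1 := by
    rw [← map_mul, ← map_pow, ← map_mul, ← map_sub, e1, map_one]
  have f2 : 16 * (phi u * phi t ^ 2) + phi e * phi v - 6 * (phi e * phi u) - 3 * phi t = 1 := by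
    have h := congrArg phi e2
    simp only [map_sub, map_add, map_mul, map_pow, map_one, map_ofNat] at h
    linear_combination h
  obtain ⟨g1, g2, g3, g4⟩ := core hR h1 N0 hN0 (phi t) (phi u) (phi v) (phi e)
    ⟨t, rfl⟩ ⟨u, rfl⟩ ⟨v, rfl⟩ ⟨e, rfl⟩ f1 f2
  obtain ⟨c1, k1⟩ := hconst t g1
  obtain ⟨c2, k2⟩ := hconst u g2
  obtain ⟨c3, k3⟩ := hconst v g3
  obtain ⟨c4, k4⟩ := hconst e g4
  exact ⟨![c1, c2, c3, c4], k1, k2, k3, k4⟩

/-- Every morphism from a once-punctured curve to Ramanujam's surface is constant. -/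
theorem hom_const {B : Type} [CommRing B] [IsDomain B] [Algebra ℂ B]
    [Algebra.FiniteType ℂ B] (hB : OncePunctured B) (f : RamanujamRing →ₐ[ℂ] B)
    (a : RamanujamRing) : ∃ c : ℂ, f a = algebraMap ℂ B c := by
  obtain ⟨F, hF⟩ : ∃ F : MvPolynomial (Fin 4) ℂ →ₐ[ℂ] B,
      F = f.comp (Ideal.Quotient.mkₐ ℂ (Ideal.span {eqOne, eqTwo})) := ⟨_, rfl⟩
  have hF1 : F eqOne = 0 := by
    rw [hF, AlgHom.comp_apply, Ideal.Quotient.mkₐ_eq_mk,
      Ideal.Quotient.eq_zero_iff_mem.2 (Ideal.subset_span (by simp)), map_zero]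
  have hF2 : F eqTwo = 0 := by
    rw [hF, AlgHom.comp_apply, Ideal.Quotient.mkₐ_eq_mk,
      Ideal.Quotient.eq_zero_iff_mem.2 (Ideal.subset_span (by simp)), map_zero]
  simp only [eqOne, eqTwo, map_sub, map_add, map_mul, map_pow, map_one, map_ofNat] at hF1 hF2
  obtain ⟨c, k0, k1, k2, k3⟩ := solution_const hB (F (MvPolynomial.X 0)) (F (MvPolynomial.X 1))
    (F (MvPolynomial.X 2)) (F (MvPolynomial.X 3)) (by linear_combination hF1)
    (by linear_combination hF2)
  obtain ⟨p, rfl⟩ := Ideal.Quotient.mk_surjective a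
  refine ⟨MvPolynomial.eval c p, ?_⟩
  have h1 : f (Ideal.Quotient.mk _ p) = F p := by rw [hF]; rfl
  have h2 : F = (Algebra.ofId ℂ B).comp (MvPolynomial.aeval c) := by
    apply MvPolynomial.algHom_ext
    intro i
    rw [AlgHom.comp_apply, MvPolynomial.aeval_X, Algebra.ofId_apply]
    fin_cases i
    · exact k0
    · exact k1
    · exact k2
    · exact k3
  rw [h1, h2, AlgHom.comp_apply, Algebra.ofId_apply]
  rfl

/-- Ramanujam's surface contains no once-punctured curve. -/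
theorem no_oncePunctured (P : Ideal RamanujamRing) [P.IsPrime] :
    ¬ OncePunctured (RamanujamRing ⧸ P) := by
  intro hB
  have hfin : Algebra.FiniteType ℂ (RamanujamRing ⧸ P) := inferInstance
  have halg : Algebra.IsAlgebraic ℂ (RamanujamRing ⧸ P) := by
    refine ⟨fun b => ?_⟩
    obtain ⟨a, rfl⟩ := Ideal.Quotient.mk_surjective b
    obtain ⟨c, hc⟩ := hom_const hB (Ideal.Quotient.mkₐ ℂ P) a
    rw [Ideal.Quotient.mkₐ_eq_mk] at hc
    rw [hc]
    exact isAlgebraic_algebraMap c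
  have h0 : Algebra.trdeg ℂ (RamanujamRing ⧸ P) = 0 := trdeg_eq_zero
  rw [hB.1] at h0
  exact one_ne_zero h0

end Pool.Agent.H90.Ram
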